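import Pool.Agent.Q31.RA.Stm
import Pool.Agent.H883B.TaskExt
import Pool.Agent.H883B.TaskRestrict
import Pool.Agent.H883B.TaskDirected
import Pool.Agent.H883B.Quot
import Pool.Agent.H476RA.TaskB

set_option autoImplicit false

namespace Pool.Agent.Q31.RA

open Pool.Agent.H883B

theorem am_iso {A B : Type} [Group A] [Group B] (e : A ≃* B) (h : Am A) : Am B :=
  taskQuot A B e.toMonoidHom e.surjective h

theorem t_Sub : S_Sub := by
  intro A B _ _ f hf hB
  obtain ⟨m, h1, h2, h3, h4⟩ := hB
  have h5 : Am (Subgroup.closure (f.range : Set B)) :=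
    taskRestrict B (f.range : Set B) m h1 h2 h3 (fun g _ X => h4 g X)
  rw [Subgroup.closure_eq] at h5
  exact am_iso (MonoidHom.ofInjective hf).symm h5

theorem t_Ext : S_Ext := by
  intro A B _ _ f hk hB
  refine taskExt A f.ker hk ?_
  exact am_iso (QuotientGroup.quotientKerEquivRange f).symm
    (t_Sub f.range B f.range.subtype Subtype.val_injective hB)

theorem t_Solv : S_Solv := by
  intro A _ hA
  refine Pool.Agent.H476RA.amen_of_locsolv A (Multiplicative ℤ) 1 ?_
  intro S _
  exact Group.isSolvable_of_isSolvable_injective (f := (Subgroup.closure (S : Set A)).subtype)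
    Subtype.val_injective

theorem t_Fin : S_Fin := by
  intro A _ hA
  classical
  have := Fintype.ofFinite A
  refine ⟨fun X => (X.ncard : ℝ) / Fintype.card A, fun X => by positivity, ?_, ?_, ?_⟩
  · simp only
    rw [Set.ncard_univ, Nat.card_eq_fintype_card, div_self]
    exact_mod_cast Fintype.card_ne_zero
  · intro X Y hXY
    simp only
    rw [Set.ncard_union_eq hXY (Set.toFinite _) (Set.toFinite _)]
    push_cast
    ring
  · intro g X
    simp only
    rw [Set.ncard_image_of_injective _ (mul_right_injective g)]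

theorem t_Prod : S_Prod := by
  intro A B _ _ hA hB
  refine t_Ext _ _ (MonoidHom.snd A B) ?_ hB
  refine t_Sub _ A ((MonoidHom.fst A B).comp (MonoidHom.snd A B).ker.subtype) ?_ hA
  rintro ⟨⟨a, b⟩, h⟩ ⟨⟨a', b'⟩, h'⟩ e
  have h1 : b = 1 := h
  have h2 : b' = 1 := h'
  have h3 : a = a' := e
  subst h1 h2 h3
  rfl

theorem pi_fin (A : Type) [Group A] (hA : Am A) (n : ℕ) : Am (Fin n → A) := by
  induction n with
  | zero => exact t_Fin _ inferInstance
  | succ n ih =>
    let r : (Fin (n + 1) → A) →* A × (Fin n → A) :=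
      { toFun := fun F => (F 0, fun i => F i.succ)
        map_one' := rfl
        map_mul' := fun _ _ => rfl }
    refine t_Sub _ _ r ?_ (t_Prod _ _ hA ih)
    intro F F' h
    funext i
    refine Fin.cases ?_ (fun j => ?_) i
    · exact (Prod.ext_iff.1 h).1
    · exact congrFun (Prod.ext_iff.1 h).2 j

theorem t_Pi : S_Pi := by
  intro X A _ hX hA
  have := Fintype.ofFinite X
  let e := Fintype.equivFin X
  let r : (X → A) →* (Fin (Fintype.card X) → A) :=
    { toFun := fun F i => F (e.symm i)
      map_one' := rfl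
      map_mul' := fun _ _ => rfl }
  refine t_Sub _ _ r ?_ (pi_fin A hA _)
  intro F F' h
  funext x
  have := congrFun h (e x)
  simpa [r] using this

theorem t_Dir : S_Dir := by
  intro A _ B hB hU hA
  have h1 : Am (sSup (Set.range B) : Subgroup A) := by
    refine taskDirected taskRestrict A (Set.range B) ⟨_, 0, rfl⟩ ?_ ?_
    · rintro _ ⟨m, rfl⟩ _ ⟨n, rfl⟩
      exact ⟨B (max m n), ⟨_, rfl⟩, hB (le_max_left _ _), hB (le_max_right _ _)⟩
    · rintro _ ⟨n, rfl⟩
      exact hA n
  have h2 : (sSup (Set.range B) : Subgroup A) = ⊤ := by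
    rw [eq_top_iff]
    intro a _
    obtain ⟨n, hn⟩ := hU a
    have h3 : B n ≤ sSup (Set.range B) := le_sSup ⟨n, rfl⟩
    exact h3 hn
  rw [h2] at h1
  exact am_iso Subgroup.topEquiv h1

theorem t_Mono : S_Mono := by
  intro X M _ hX hM
  have hp : ∀ (π : mono X M) x m, (π : Equiv.Perm (X × M)) (x, m) =
      (((π : Equiv.Perm (X × M)) (x, 1)).1, ((π : Equiv.Perm (X × M)) (x, 1)).2 * m) :=
    fun π => π.2
  have hmul : ∀ (π σ : mono X M) x, ((π * σ : mono X M) : Equiv.Perm (X × M)) (x, 1) =
      (((π : Equiv.Perm (X × M)) (((σ : Equiv.Perm (X × M)) (x, 1)).1, 1)).1,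
        ((π : Equiv.Perm (X × M)) (((σ : Equiv.Perm (X × M)) (x, 1)).1, 1)).2 *
          ((σ : Equiv.Perm (X × M)) (x, 1)).2) := by
    intro π σ x
    exact hp π _ _
  let τ : mono X M →* Equiv.Perm X := MonoidHom.toHomPerm
    { toFun := fun π x => ((π : Equiv.Perm (X × M)) (x, 1)).1
      map_one' := rfl
      map_mul' := by
        intro π σ
        funext x
        show (((π * σ : mono X M) : Equiv.Perm (X × M)) (x, 1)).1 = _
        rw [hmul]
        rfl }
  have hτ : ∀ π : τ.ker, ∀ x, (((π : mono X M) : Equiv.Perm (X × M)) (x, 1)).1 = x := by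
    intro π x
    exact congrArg (fun e : Equiv.Perm X => e x) π.2
  refine t_Ext _ _ τ ?_ (t_Fin _ inferInstance)
  let r : τ.ker →* (X → M) :=
    { toFun := fun π x => (((π : mono X M) : Equiv.Perm (X × M)) (x, 1)).2
      map_one' := rfl
      map_mul' := by
        intro π σ
        funext x
        show ((((π : mono X M) * (σ : mono X M) : mono X M) : Equiv.Perm (X × M)) (x, 1)).2 = _
        rw [hmul]
        have h5 := hτ σ x
        show ((((π : mono X M)) : Equiv.Perm (X × M))
          (((((σ : mono X M)) : Equiv.Perm (X × M)) (x, 1)).1, 1)).2 *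
            ((((σ : mono X M)) : Equiv.Perm (X × M)) (x, 1)).2 = _
        rw [h5]
        rfl }
  refine t_Sub _ _ r ?_ (t_Pi _ _ hX hM)
  intro π σ h
  apply Subtype.ext
  apply Subtype.ext
  apply Equiv.ext
  rintro ⟨x, m⟩
  rw [hp, hp σ, hτ, hτ]
  have h1 : (((π : mono X M) : Equiv.Perm (X × M)) (x, 1)).2 =
    (((σ : mono X M) : Equiv.Perm (X × M)) (x, 1)).2 := congrFun h x
  rw [h1]

end Pool.Agent.Q31.RA
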