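import Pool.Agent.Q31.RA.Stm

set_option autoImplicit false

namespace Pool.Agent.Q31.RA

theorem conj_aux (h1 : S_Root) (h2 : S_Shift) (A : Type) [Group A] (Ψ : A →* Multiplicative ℤ)
    (e f : A) (hA : Am A) (n : ℕ) (hn : 0 < n) (he : Ψ e = Multiplicative.ofAdd (n : ℤ))
    (hf : Ψ f = Multiplicative.ofAdd (n : ℤ)) :
    ∃ (B : Type) (_ : Group B) (i : A →* B) (x : B) (Ψ' : B →* Multiplicative ℤ), Am B ∧
      Function.Injective i ∧ x * i e * x⁻¹ = i f ∧ ∀ a, Ψ' (i a) = Ψ a ^ n := by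
  obtain ⟨M, gM, c, Ψ', hM, hc, hΨ, hr⟩ := h1 A Ψ n hn hA
  obtain ⟨r, hr1, hr2⟩ := hr e
  obtain ⟨t, ht1, ht2⟩ := hr f
  let pw : M → A →* M := fun y => (zpowersHom M y).comp Ψ
  have hpw : ∀ y a, pw y a = y ^ (Multiplicative.toAdd (Ψ a)) := fun y a => rfl
  have hval : ∀ (y : M) (z : A), Ψ' y = Ψ z → Ψ z = Multiplicative.ofAdd (n : ℤ) → ∀ a,
      Ψ' (pw y a) = Ψ' (c a) := by
    intro y z hy hz a
    rw [hpw, map_zpow, hy, hz, hΨ]
    apply Multiplicative.toAdd.injective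
    rw [toAdd_zpow, toAdd_pow, toAdd_ofAdd, smul_eq_mul, nsmul_eq_mul, mul_comm]
  obtain ⟨B, gB, i, x, Ψ'', hB, hi, hx, hΨ'⟩ := h2 A M c (pw r) (pw t) e f Ψ' hM hc
    (fun a b => by rw [hpw, hpw]; exact (Commute.refl r).zpow_zpow _ _)
    (fun a b => by rw [hpw, hpw]; exact (Commute.refl t).zpow_zpow _ _)
    (by rw [hpw, hpw, he, hf])
    (by rw [hpw, he, toAdd_ofAdd, zpow_natCast, hr1])
    (by rw [hpw, hpw, he, hf])
    (by rw [hpw, hf, toAdd_ofAdd, zpow_natCast, ht1])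
    (hval r e hr2 he) (hval t f ht2 hf)
  exact ⟨B, gB, i, x, Ψ'', hB, hi, hx, fun a => by rw [hΨ', hΨ]⟩

theorem t_Conj (h1 : S_Root) (h2 : S_Shift) : S_Conj := by
  intro A _ Ψ e f hA hef he
  obtain ⟨m, hm⟩ : ∃ m : ℤ, Ψ e = Multiplicative.ofAdd m := ⟨Multiplicative.toAdd (Ψ e), rfl⟩
  have hm0 : m ≠ 0 := by
    rintro rfl
    exact he (by rw [hm]; rfl)
  rcases lt_or_gt_of_ne hm0 with h | h
  · obtain ⟨B, gB, i, x, Ψ', hB, hi, hx, hΨ⟩ := conj_aux h1 h2 A Ψ e⁻¹ f⁻¹ hA m.natAbs (by omega)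
      (by rw [map_inv, hm, ← ofAdd_neg]; congr 1; omega)
      (by rw [map_inv, ← hef, hm, ← ofAdd_neg]; congr 1; omega)
    refine ⟨B, gB, i, x, Ψ', m.natAbs, by omega, hB, hi, ?_, hΨ⟩
    have h3 := congrArg (·⁻¹) hx
    simp only [map_inv, mul_inv_rev, inv_inv, mul_assoc] at h3
    simpa only [mul_assoc] using h3
  · obtain ⟨B, gB, i, x, Ψ', hB, hi, hx, hΨ⟩ := conj_aux h1 h2 A Ψ e f hA m.natAbs (by omega)
      (by rw [hm]; congr 1; omega)
      (by rw [← hef, hm]; congr 1; omega)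
    exact ⟨B, gB, i, x, Ψ', m.natAbs, by omega, hB, hi, hx, hΨ⟩

theorem t_Conjs (h : S_Conj) : S_Conjs := by
  intro A gA Ψ L hA hL
  induction hn : L.length generalizing A L with
  | zero =>
    rw [List.length_eq_zero_iff] at hn
    subst hn
    exact ⟨A, gA, MonoidHom.id A, hA, fun _ _ h => h, by simp⟩
  | succ n ih =>
    obtain ⟨⟨e, f⟩, L', rfl⟩ := List.exists_cons_of_length_eq_add_one hn
    obtain ⟨B, gB, i, x, Ψ', k, hk, hB, hi, hx, hΨ⟩ := h A Ψ e f hA (hL (e, f) (by simp)).1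
      (hL (e, f) (by simp)).2
    obtain ⟨B', gB', i', hB', hi', hL'⟩ := ih B Ψ' (L'.map (fun z => (i z.1, i z.2))) hB (by
      intro z hz
      rw [List.mem_map] at hz
      obtain ⟨y, hy, rfl⟩ := hz
      have h3 := hL y (by simp [hy])
      refine ⟨by simp only; rw [hΨ, hΨ, h3.1], ?_⟩
      simp only
      rw [hΨ]
      intro h4
      apply h3.2
      have h5 := congrArg Multiplicative.toAdd h4
      rw [toAdd_pow, toAdd_one, smul_eq_zero] at h5
      apply Multiplicative.toAdd.injective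
      rw [toAdd_one]
      exact h5.resolve_left (by omega)) (by simpa using hn)
    refine ⟨B', gB', i'.comp i, hB', hi'.comp hi, ?_⟩
    intro z hz
    rcases List.mem_cons.1 hz with rfl | hz
    · refine ⟨i' x, ?_⟩
      simp only [MonoidHom.comp_apply]
      rw [← map_mul, ← map_inv, ← map_mul, hx]
    · exact hL' (i z.1, i z.2) (List.mem_map.2 ⟨z, hz, rfl⟩)

end Pool.Agent.Q31.RA
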