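import Pool.Agent.Q31.RA.Stm
import Pool.Agent.Q31.RA.Conj

set_option autoImplicit false

namespace Pool.Agent.Q31.RA

/-- a finite group as base -/
theorem comb_fin (hSub : S_Sub) (hProd : S_Prod) (hMono : S_Mono) (hDec : S_Decomp)
    (hMatch : S_Match) (C A₁ A₂ : Type) [Group C] [Group A₁] [Group A₂] (j₁ : C →* A₁)
    (j₂ : C →* A₂) (hC : Finite C) (h₁ : Am A₁) (h₂ : Am A₂) (v₁ : VR j₁) (v₂ : VR j₂) :
    ∃ (P : Type) (_ : Group P) (Φ₁ : A₁ →* P) (Φ₂ : A₂ →* P), Am P ∧ Function.Injective Φ₁ ∧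
      Function.Injective Φ₂ ∧ ∀ c, Φ₁ (j₁ c) = Φ₂ (j₂ c) := by
  classical
  have key : ∀ (A : Type) [Group A] (j : C →* A), VR j → ∃ (N : Subgroup A) (_ : N.Normal)
      (_ : N.FiniteIndex), N.comap j = ⊥ := by
    intro A _ j hj
    obtain ⟨K, hK, h, ρ, hρ⟩ := hj
    have f1 : (ρ.ker).FiniteIndex := inferInstance
    have f2 : (ρ.ker.map K.subtype).FiniteIndex := by
      refine ⟨?_⟩
      rw [Subgroup.index_map_subtype]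
      exact mul_ne_zero f1.index_ne_zero hK.index_ne_zero
    refine ⟨(ρ.ker.map K.subtype).normalCore, inferInstance, inferInstance, ?_⟩
    rw [eq_bot_iff]
    intro c hc
    rw [Subgroup.mem_comap] at hc
    have hc2 := Subgroup.normalCore_le _ hc
    obtain ⟨k, hk, hk2⟩ := hc2
    have : k = ⟨j c, h c⟩ := Subtype.ext hk2
    rw [this] at hk
    have hk3 : ρ ⟨j c, h c⟩ = 1 := hk
    rw [hρ] at hk3
    exact hk3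
  obtain ⟨N₁, n₁, f₁, c₁⟩ := key A₁ j₁ v₁
  obtain ⟨N₂, n₂, f₂, c₂⟩ := key A₂ j₂ v₂
  obtain ⟨O₁, fO₁, a, ha⟩ := hDec C A₁ j₁ N₁ ⊥ c₁
  obtain ⟨O₂, fO₂, b, hb⟩ := hDec C A₂ j₂ N₂ ⊥ c₂
  obtain ⟨Φ₁, Φ₂, hΦ, i₁, i₂⟩ := hMatch C A₁ A₂ (N₁ × N₂) j₁ j₂ N₁ N₂ ⊥ c₁ c₂ O₁ O₂ a b ha hb
    (fun _ => MonoidHom.inl N₁ N₂) (fun _ => MonoidHom.inr N₁ N₂) (fun _ _ => 1) (by
      intro o₁ o₂ d q₁ q₂ hd
      rw [Subgroup.mem_bot] at hd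
      subst hd
      rw [mul_one, one_mul]
      have e1 : (⟨(a o₁)⁻¹ * j₁ 1 * a o₁, q₁⟩ : N₁) = 1 := by
        apply Subtype.ext
        simp
      have e2 : (⟨(b o₂)⁻¹ * j₂ 1 * b o₂, q₂⟩ : N₂) = 1 := by
        apply Subtype.ext
        simp
      rw [e1, e2, map_one, map_one])
  refine ⟨_, inferInstance, Φ₁, Φ₂, ?_, i₁ fun _ p q h => (Prod.ext_iff.1 h).1,
    i₂ fun _ p q h => (Prod.ext_iff.1 h).2, hΦ⟩
  exact hMono _ _ inferInstance (hProd _ _ (hSub _ _ N₁.subtype Subtype.val_injective h₁)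
    (hSub _ _ N₂.subtype Subtype.val_injective h₂))

/-- an element of infinite order -/
theorem comb_inf (hSub : S_Sub) (hProd : S_Prod) (hSolv : S_Solv) (hMono : S_Mono)
    (hDec : S_Decomp) (hMatch : S_Match) (hPot : S_Pot) (hGen : S_Gen) (hConjs : S_Conjs)
    (C A₁ A₂ : Type) [Group C] [Group A₁] [Group A₂] (j₁ : C →* A₁)
    (j₂ : C →* A₂) (c : C) (hc : ∀ n : ℤ, c ^ n = 1 → n = 0)
    (hC : (Subgroup.zpowers c).FiniteIndex) (h₁ : Am A₁) (h₂ : Am A₂) (v₁ : VR j₁) (v₂ : VR j₂) :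
    ∃ (P : Type) (_ : Group P) (Φ₁ : A₁ →* P) (Φ₂ : A₂ →* P), Am P ∧ Function.Injective Φ₁ ∧
      Function.Injective Φ₂ ∧ ∀ c, Φ₁ (j₁ c) = Φ₂ (j₂ c) := by
  classical
  obtain ⟨m₁, hm₁, hp₁⟩ := hPot C A₁ j₁ v₁ c hc hC
  obtain ⟨m₂, hm₂, hp₂⟩ := hPot C A₂ j₂ v₂ c hc hC
  obtain ⟨N₁, n₁, f₁, χ₁, c₁, e₁, x₁⟩ := hp₁ m₂ hm₂
  obtain ⟨N₂, n₂, f₂, χ₂, c₂, e₂, x₂⟩ := hp₂ m₁ hm₁
  obtain ⟨e, he⟩ : ∃ e, e = c ^ (m₁ * m₂) := ⟨_, rfl⟩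
  have he' : c ^ (m₂ * m₁) = e := by rw [he, mul_comm]
  rw [he'] at c₂
  rw [← he] at c₁
  have y₁ : ∃ h : j₁ e ∈ N₁, χ₁ ⟨j₁ e, h⟩ ≠ 1 := by rw [he]; exact ⟨e₁, x₁⟩
  have y₂ : ∃ h : j₂ e ∈ N₂, χ₂ ⟨j₂ e, h⟩ ≠ 1 := by rw [← he']; exact ⟨e₂, x₂⟩
  obtain ⟨k₁, z₁⟩ := y₁
  obtain ⟨k₂, z₂⟩ := y₂
  obtain ⟨ψ₁, hψ₁⟩ := hGen A₁ N₁ χ₁ (j₁ e) k₁ z₁
  obtain ⟨ψ₂, hψ₂⟩ := hGen A₂ N₂ χ₂ (j₂ e) k₂ z₂
  obtain ⟨O₁, fO₁, a, ha⟩ := hDec C A₁ j₁ N₁ _ c₁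
  obtain ⟨O₂, fO₂, b, hb⟩ := hDec C A₂ j₂ N₂ _ c₂
  have memA : ∀ o, (a o)⁻¹ * j₁ e * a o ∈ N₁ := fun o => by
    simpa using n₁.conj_mem _ k₁ (a o)⁻¹
  have memB : ∀ o, (b o)⁻¹ * j₂ e * b o ∈ N₂ := fun o => by
    simpa using n₂.conj_mem _ k₂ (b o)⁻¹
  let E₁ : O₁ → N₁ := fun o => ⟨_, memA o⟩
  let E₂ : O₂ → N₂ := fun o => ⟨_, memB o⟩
  let s₁ : O₁ → ℤ := fun o => Multiplicative.toAdd (ψ₁ (E₁ o))
  let s₂ : O₂ → ℤ := fun o => Multiplicative.toAdd (ψ₂ (E₂ o))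
  have s₁0 : ∀ o, s₁ o ≠ 0 := fun o h => hψ₁ (a o) (memA o) (Multiplicative.toAdd.injective h)
  have s₂0 : ∀ o, s₂ o ≠ 0 := fun o h => hψ₂ (b o) (memB o) (Multiplicative.toAdd.injective h)
  let T := Multiplicative ℤ
  let θ : O₂ → N₁ →* (N₁ × N₂) × T := fun o =>
    (MonoidHom.inl N₁ N₂).prod ((zpowGroupHom (s₂ o - 1)).comp ψ₁)
  let θ' : O₁ → N₂ →* (N₁ × N₂) × T := fun o =>
    (MonoidHom.inr N₁ N₂).prod ((zpowGroupHom (s₁ o - 1)).comp ψ₂)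
  let Ψ : (N₁ × N₂) × T →* Multiplicative ℤ :=
    (ψ₁.comp ((MonoidHom.fst N₁ N₂).comp (MonoidHom.fst _ _))) *
      (ψ₂.comp ((MonoidHom.snd N₁ N₂).comp (MonoidHom.fst _ _))) * MonoidHom.snd _ _
  have hΨ₁ : ∀ o n, Ψ (θ o n) = ψ₁ n ^ (s₂ o) := by
    intro o n
    show ψ₁ n * ψ₂ 1 * (ψ₁ n) ^ (s₂ o - 1) = _
    rw [map_one, mul_one, ← zpow_one_add]
    congr 1
    ring
  have hΨ₂ : ∀ o n, Ψ (θ' o n) = ψ₂ n ^ (s₁ o) := by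
    intro o n
    show ψ₁ 1 * ψ₂ n * (ψ₂ n) ^ (s₁ o - 1) = _
    rw [map_one, one_mul, ← zpow_one_add]
    congr 1
    ring
  have hΨ₁' : ∀ o₁ o₂, Multiplicative.toAdd (Ψ (θ o₂ (E₁ o₁))) = s₁ o₁ * s₂ o₂ := by
    intro o₁ o₂
    rw [hΨ₁, toAdd_zpow, smul_eq_mul]
    exact mul_comm _ _
  have hΨ₂' : ∀ o₁ o₂, Multiplicative.toAdd (Ψ (θ' o₁ (E₂ o₂))) = s₁ o₁ * s₂ o₂ := by
    intro o₁ o₂
    rw [hΨ₂, toAdd_zpow, smul_eq_mul]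
  have := Fintype.ofFinite O₁
  have := Fintype.ofFinite O₂
  have hN : Am ((N₁ × N₂) × T) :=
    hProd _ _ (hProd _ _ (hSub _ _ N₁.subtype Subtype.val_injective h₁)
      (hSub _ _ N₂.subtype Subtype.val_injective h₂))
      (hSolv _ (Group.isSolvable_of_comm (fun a b => mul_comm a b)))
  obtain ⟨B, gB, i, hB, hi, hL⟩ := hConjs ((N₁ × N₂) × T) Ψ
    ((Finset.univ : Finset (O₁ × O₂)).toList.map (fun o => (θ o.2 (E₁ o.1), θ' o.1 (E₂ o.2)))) hN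
    (by
      intro z hz
      rw [List.mem_map] at hz
      obtain ⟨⟨o₁, o₂⟩, -, rfl⟩ := hz
      constructor
      · apply Multiplicative.toAdd.injective
        rw [hΨ₁', hΨ₂']
      · intro h
        have h3 := hΨ₁' o₁ o₂
        simp only at h
        rw [h] at h3
        exact mul_ne_zero (s₁0 o₁) (s₂0 o₂) h3.symm)
  have hL' : ∀ o₁ o₂, ∃ x : B, x * i (θ o₂ (E₁ o₁)) * x⁻¹ = i (θ' o₁ (E₂ o₂)) := by
    intro o₁ o₂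
    exact hL (θ o₂ (E₁ o₁), θ' o₁ (E₂ o₂)) (List.mem_map.2 ⟨(o₁, o₂), by simp, rfl⟩)
  choose x hx using hL'
  have conjpow : ∀ {A : Type} [Group A] (y z : A) (t : ℤ), y⁻¹ * z ^ t * y = (y⁻¹ * z * y) ^ t := by
    intro A _ y z t
    have := conj_zpow (a := y⁻¹) (b := z) (i := t)
    simpa using this.symm
  obtain ⟨Φ₁, Φ₂, hΦ, i₁, i₂⟩ := hMatch C A₁ A₂ B j₁ j₂ N₁ N₂ _ c₁ c₂ O₁ O₂ a b ha hb
    (fun o => i.comp (θ o)) (fun o => i.comp (θ' o)) (fun o₁ o₂ => (x o₁ o₂)⁻¹) (by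
      intro o₁ o₂ d q₁ q₂ hd
      obtain ⟨t, rfl⟩ := Subgroup.mem_zpowers_iff.1 hd
      have r1 : (⟨(a o₁)⁻¹ * j₁ (e ^ t) * a o₁, q₁⟩ : N₁) = (E₁ o₁) ^ t := by
        apply Subtype.ext
        simp only [E₁, map_zpow, SubgroupClass.coe_zpow]
        exact conjpow _ _ _
      have r2 : (⟨(b o₂)⁻¹ * j₂ (e ^ t) * b o₂, q₂⟩ : N₂) = (E₂ o₂) ^ t := by
        apply Subtype.ext
        simp only [E₂, map_zpow, SubgroupClass.coe_zpow]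
        exact conjpow _ _ _
      rw [r1, r2, map_zpow, map_zpow, MonoidHom.comp_apply, MonoidHom.comp_apply, ← hx,
        conj_zpow]
      group)
  refine ⟨_, inferInstance, Φ₁, Φ₂, ?_, i₁ fun o => hi.comp ?_, i₂ fun o => hi.comp ?_, hΦ⟩
  · have : (Subgroup.zpowers e).FiniteIndex := by
      rw [← c₁]
      refine ⟨?_⟩
      rw [Subgroup.index_comap]
      have : N₁.IsFiniteRelIndex j₁.range := Subgroup.isFiniteRelIndex_of_finiteIndex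
      exact this.relIndex_ne_zero
    exact hMono _ _ inferInstance hB
  · intro p q hpq
    exact (Prod.ext_iff.1 (Prod.ext_iff.1 hpq).1).1
  · intro p q hpq
    exact (Prod.ext_iff.1 (Prod.ext_iff.1 hpq).1).2

theorem t_Comb (hSub : S_Sub) (hProd : S_Prod) (hSolv : S_Solv) (hMono : S_Mono)
    (hDec : S_Decomp) (hMatch : S_Match) (hPot : S_Pot) (hGen : S_Gen) (hConjs : S_Conjs) :
    S_Comb := by
  intro C A₁ A₂ _ _ _ j₁ j₂ ⟨c, hc⟩ h₁ h₂ v₁ v₂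
  by_cases h : ∀ n : ℤ, c ^ n = 1 → n = 0
  · exact comb_inf hSub hProd hSolv hMono hDec hMatch hPot hGen hConjs C A₁ A₂ j₁ j₂ c h hc h₁ h₂
      v₁ v₂
  · have hfin : Finite (Subgroup.zpowers c) := by
      push Not at h
      obtain ⟨n, hn, hn0⟩ := h
      refine Set.Finite.to_subtype (finite_zpowers.2 ?_)
      exact isOfFinOrder_iff_zpow_eq_one.2 ⟨n, hn0, hn⟩
    have hC : Finite C := by
      have : Finite (C ⧸ Subgroup.zpowers c) := Subgroup.finite_quotient_of_finiteIndex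
      exact Finite.of_equiv _ (Subgroup.groupEquivQuotientProdSubgroup (s := Subgroup.zpowers c)).symm
    exact comb_fin hSub hProd hMono hDec hMatch C A₁ A₂ j₁ j₂ hC h₁ h₂ v₁ v₂

end Pool.Agent.Q31.RA
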