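import Pool.Agent.Q31.RA.Stm
import Pool.Agent.H476RA.Step
import Pool.Agent.H476RA.TaskA

set_option autoImplicit false

namespace Pool.Agent.Q31.RA

open Monoid Pool.Agent.H476RA

theorem VR.injective {C A : Type} [Group C] [Group A] {j : C →* A} (h : VR j) :
    Function.Injective j := by
  obtain ⟨K, _, hK, ρ, hρ⟩ := h
  intro x y hxy
  rw [← hρ x, ← hρ y]
  congr 1
  exact Subtype.ext hxy

/-- letters of a normal word are outside the base group -/
theorem letter_not_range {ι : Type} {G : ι → Type} [∀ i, Group (G i)] {H : Type} [Group H]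
    {φ : ∀ i, H →* G i} (d : PushoutI.NormalWord.Transversal φ) (w : PushoutI.NormalWord d)
    (i : ι) (x : G i) (hx : (⟨i, x⟩ : Σ i, G i) ∈ w.toList) : x ∉ (φ i).range := by
  rintro ⟨h, rfl⟩
  have h1 := w.normalized i _ hx
  have h2 : φ i h ≠ 1 := w.ne_one ⟨i, φ i h⟩ hx
  have h3 := (d.compl i).1
  have h4 := @h3 (⟨φ i h, h, rfl⟩, ⟨1, d.one_mem i⟩) (⟨1, 1, map_one _⟩, ⟨φ i h, h1⟩) (by simp)
  have h5 := congrArg (fun z => ((z.1 : (φ i).range) : G i)) h4
  exact h2 h5

/-- the amenable quotient from a word surviving in a free group -/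
theorem survive_quot (hSolv : S_Solv) (hExt : S_Ext) {Q P : Type} [Group Q] [Group P] (F : Q →* P)
    (hP : Am P) (g : Q) (hg : g ∈ F.ker) (Y : Type) (θ : F.ker →* FreeGroup Y)
    (hθ : θ ⟨g, hg⟩ ≠ 1) : ∃ (A : Type) (_ : Group A) (f : Q →* A), Am A ∧ f g ≠ 1 := by
  obtain ⟨l, hl⟩ := free_resid Y _ hθ
  refine ⟨Q ⧸ NN F l, inferInstance, QuotientGroup.mk' (NN F l), ?_, ?_⟩
  · exact hExt _ _ (rh F l) (hSolv _ (rh_ker_solv F l)) hP
  · rw [QuotientGroup.mk'_apply, Ne, QuotientGroup.eq_one_iff]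
    rintro ⟨k, hk1, hk2⟩
    apply hl
    have h3 : θ k ∈ derivedSeries (FreeGroup Y) l :=
      map_derivedSeries_le_derivedSeries (f := θ) l ⟨k, hk1, rfl⟩
    have h4 : k = ⟨g, hg⟩ := Subtype.ext hk2
    rw [← h4]
    exact h3

theorem t_Final (hExt : S_Ext) (hSolv : S_Solv) (hRed : S_Red) (hComb : S_Comb)
    (hPush : S_Push) : S_Final := by
  intro G _ H _ φ hG hH hφ g hg
  classical
  have inj : ∀ i, Function.Injective (φ i) := fun i => (hφ i).injective
  obtain ⟨d⟩ := PushoutI.NormalWord.transversal_nonempty φ inj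
  obtain ⟨w, rfl⟩ : ∃ w : PushoutI.NormalWord d, w.prod = g :=
    ⟨PushoutI.NormalWord.equiv g, PushoutI.NormalWord.equiv.symm_apply_apply g⟩
  have hlet := letter_not_range d w
  let S : ∀ i, List (G i) := fun i => w.toList.filterMap
    (fun l => if h : l.1 = i then some (h ▸ l.2) else none)
  have hS : ∀ i (x : G i), x ∈ S i ↔ (⟨i, x⟩ : Σ i, G i) ∈ w.toList := by
    intro i x
    simp only [S, List.mem_filterMap]
    constructor
    · rintro ⟨⟨k, y⟩, hy, h2⟩
      split_ifs at h2 with h3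
      simp only at h3
      subst h3
      simp only [Option.some.injEq] at h2
      rw [← h2]
      exact hy
    · intro h
      exact ⟨⟨i, x⟩, h, by simp⟩
  obtain ⟨A₁, gA₁, π₁, hA₁, hv₁, hl₁⟩ := hRed H (G false) (φ false) hH (hφ false) (hG false)
    (S false) (fun x hx => hlet false x ((hS false x).1 hx))
  obtain ⟨A₂, gA₂, π₂, hA₂, hv₂, hl₂⟩ := hRed H (G true) (φ true) hH (hφ true) (hG true)
    (S true) (fun x hx => hlet true x ((hS true x).1 hx))
  obtain ⟨P, gP, Φ₁, Φ₂, hP, i₁, i₂, hΦ⟩ := hComb H A₁ A₂ (π₁.comp (φ false))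
    (π₂.comp (φ true)) hH hA₁ hA₂ hv₁ hv₂
  let f : ∀ i, G i →* P := fun i => match i with
    | false => Φ₁.comp π₁
    | true => Φ₂.comp π₂
  let f₀ : H →* P := (Φ₁.comp π₁).comp (φ false)
  have hf : ∀ i, (f i).comp (φ i) = f₀ := by
    intro i
    cases i with
    | false => rfl
    | true =>
      ext x
      exact (hΦ x).symm
  have hf₀ : Function.Injective f₀ := i₁.comp hv₁.injective
  have hw : ∀ l ∈ w.toWord.toList, f l.1 l.2 ∉ f₀.range := by
    rintro ⟨i, x⟩ hx ⟨h, hh⟩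
    cases i with
    | false =>
      exact hl₁ x ((hS false x).2 hx) ⟨h, i₁ hh⟩
    | true =>
      rw [← hf true] at hh
      exact hl₂ x ((hS true x).2 hx) ⟨h, i₂ hh⟩
  by_cases hk : w.prod ∈ (PushoutI.lift f f₀ hf).ker
  · by_cases he : w.toWord = CoprodI.Word.empty
    · exfalso
      apply hg
      have h1 : w.prod = PushoutI.base φ w.head := by
        simp [PushoutI.NormalWord.prod, he]
      rw [h1, MonoidHom.mem_ker, PushoutI.lift_base] at hk
      rw [h1, hf₀ (hk.trans (map_one f₀).symm), map_one]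
    · obtain ⟨Y, θ, hθ⟩ := hPush Bool G H φ P f f₀ hf w.head w.toWord he hw hk
      exact survive_quot hSolv hExt _ hP _ hk Y θ hθ
  · exact ⟨P, gP, PushoutI.lift f f₀ hf, hP, hk⟩

end Pool.Agent.Q31.RA
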