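import Pool.Agent.Q31.RA.Stm

set_option autoImplicit false

namespace Pool.Agent.Q31.RA

/-- the bijection onto the cosets as an equivalence -/
noncomputable def bet {C A : Type} [Group C] [Group A] (j : C →* A) (N : Subgroup A)
    (D : Subgroup C) {O : Type} (a : O → A)
    (ha : Function.Bijective (fun p : (C ⧸ D) × O =>
      ((j (Quotient.out p.1) * a p.2 : A) : A ⧸ N))) : (C ⧸ D) × O ≃ A ⧸ N :=
  Equiv.ofBijective _ ha

/-- the section -/
noncomputable def sec {C A : Type} [Group C] [Group A] (j : C →* A) (N : Subgroup A)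
    (D : Subgroup C) {O : Type} (a : O → A)
    (ha : Function.Bijective (fun p : (C ⧸ D) × O =>
      ((j (Quotient.out p.1) * a p.2 : A) : A ⧸ N))) (f : A ⧸ N) : A :=
  j (Quotient.out ((bet j N D a ha).symm f).1) * a ((bet j N D a ha).symm f).2

theorem sec_mk {C A : Type} [Group C] [Group A] (j : C →* A) (N : Subgroup A)
    (D : Subgroup C) {O : Type} (a : O → A)
    (ha : Function.Bijective (fun p : (C ⧸ D) × O =>
      ((j (Quotient.out p.1) * a p.2 : A) : A ⧸ N))) (f : A ⧸ N) :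
    ((sec j N D a ha f : A) : A ⧸ N) = f :=
  (bet j N D a ha).apply_symm_apply f

theorem sec_bet {C A : Type} [Group C] [Group A] (j : C →* A) (N : Subgroup A)
    (D : Subgroup C) {O : Type} (a : O → A)
    (ha : Function.Bijective (fun p : (C ⧸ D) × O =>
      ((j (Quotient.out p.1) * a p.2 : A) : A ⧸ N))) (x : C ⧸ D) (o : O) :
    sec j N D a ha (bet j N D a ha (x, o)) = j (Quotient.out x) * a o := by
  unfold sec
  rw [Equiv.symm_apply_apply]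

theorem smul_bet {C A : Type} [Group C] [Group A] (j : C →* A) (N : Subgroup A) [N.Normal]
    (D : Subgroup C) (hD : N.comap j = D) {O : Type} (a : O → A)
    (ha : Function.Bijective (fun p : (C ⧸ D) × O =>
      ((j (Quotient.out p.1) * a p.2 : A) : A ⧸ N))) (c : C) (x : C ⧸ D) (o : O) :
    j c • bet j N D a ha (x, o) = bet j N D a ha (c • x, o) := by
  show (((j c) * (j (Quotient.out x) * a o) : A) : A ⧸ N) = ((j (Quotient.out (c • x)) * a o : A) : A ⧸ N)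
  rw [QuotientGroup.eq]
  have h1 : (c * Quotient.out x)⁻¹ * Quotient.out (c • x) ∈ D := by
    rw [← QuotientGroup.eq]
    have h2 : ((Quotient.out (c • x) : C) : C ⧸ D) = c • x := Quotient.out_eq _
    have h3 : ((Quotient.out x : C) : C ⧸ D) = x := Quotient.out_eq _
    rw [h2]
    conv_rhs => rw [← h3]
    rfl
  have h0 : ∀ d ∈ D, j d ∈ N := fun d hd => by
    rw [← hD] at hd
    exact hd
  have h4 := Subgroup.Normal.conj_mem ‹N.Normal› _ (h0 _ h1) (a o)⁻¹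
  simp only [map_mul, map_inv, inv_inv, mul_inv_rev, mul_assoc] at h4 ⊢
  exact h4

/-- transport of the induced action -/
noncomputable def ind {A M L X : Type} [Group A] [Group M] (K : Subgroup A) (s : A ⧸ K → A)
    (hs : ∀ f, ((s f : A) : A ⧸ K) = f) (θ : L → K →* M) (E : X ≃ (A ⧸ K) × L) :
    A →* Equiv.Perm (X × M) :=
  ((Equiv.prodCongr E (Equiv.refl M)).symm.permCongrHom.toMonoidHom).comp (kk K s hs θ)

theorem ind_apply {A M L X : Type} [Group A] [Group M] (K : Subgroup A) (s : A ⧸ K → A)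
    (hs : ∀ f, ((s f : A) : A ⧸ K) = f) (θ : L → K →* M) (E : X ≃ (A ⧸ K) × L) (a : A)
    (x : X) (m : M) :
    ind K s hs θ E a (x, m) = (E.symm (a • (E x).1, (E x).2),
      θ (E x).2 ⟨(s (a • (E x).1))⁻¹ * a * s (E x).1, kk_mem K s hs a (E x).1⟩ * m) := rfl

theorem ind_mono {A M L X : Type} [Group A] [Group M] (K : Subgroup A) (s : A ⧸ K → A)
    (hs : ∀ f, ((s f : A) : A ⧸ K) = f) (θ : L → K →* M) (E : X ≃ (A ⧸ K) × L) (a : A) :
    ind K s hs θ E a ∈ mono X M := by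
  intro x m
  simp [ind_apply]

theorem ind_inj {A M L X : Type} [Group A] [Group M] (K : Subgroup A) (s : A ⧸ K → A)
    (hs : ∀ f, ((s f : A) : A ⧸ K) = f) (θ : L → K →* M) (E : X ≃ (A ⧸ K) × L) [Nonempty L]
    (hθ : ∀ l, Function.Injective (θ l)) : Function.Injective (ind K s hs θ E) := by
  rw [injective_iff_map_eq_one]
  intro g hg
  obtain ⟨l⟩ := ‹Nonempty L›
  have h1 := congrArg (fun π : Equiv.Perm (X × M) => π (E.symm ((1 : A), l), 1)) hg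
  simp only [ind_apply, Equiv.Perm.coe_one, id, Equiv.apply_symm_apply] at h1
  have h2 := (Prod.ext_iff.1 h1).1
  have h3 := (Prod.ext_iff.1 h1).2
  simp only [EmbeddingLike.apply_eq_iff_eq, Prod.mk.injEq, and_true] at h2
  simp only [mul_one] at h3
  have h4 := hθ l (h3.trans (map_one _).symm)
  have h5 : (s (g • ((1 : A) : A ⧸ K)))⁻¹ * g * s ((1 : A) : A ⧸ K) = 1 := congrArg Subtype.val h4
  rw [h2] at h5
  have h6 := congrArg (fun z => s ((1 : A) : A ⧸ K) * z * (s ((1 : A) : A ⧸ K))⁻¹) h5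
  simpa [mul_assoc] using h6

/-- multiplication by a function -/
def tw {X M : Type} [Group M] (u : X → M) : Equiv.Perm (X × M) where
  toFun p := (p.1, u p.1 * p.2)
  invFun p := (p.1, (u p.1)⁻¹ * p.2)
  left_inv p := by simp
  right_inv p := by simp

theorem tw_mono {X M : Type} [Group M] (u : X → M) : tw u ∈ mono X M := by
  intro x m
  simp [tw]

theorem t_Match : S_Match := by
  intro C A₁ A₂ M _ _ _ _ j₁ j₂ N₁ N₂ _ _ D hD₁ hD₂ O₁ O₂ a b ha hb θ θ' u hu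
  let E₁ : ((C ⧸ D) × O₁) × O₂ ≃ (A₁ ⧸ N₁) × O₂ :=
    Equiv.prodCongr (bet j₁ N₁ D a ha) (Equiv.refl O₂)
  let E₂ : ((C ⧸ D) × O₁) × O₂ ≃ (A₂ ⧸ N₂) × O₁ :=
    { toFun := fun p => (bet j₂ N₂ D b hb (p.1.1, p.2), p.1.2)
      invFun := fun q => ((((bet j₂ N₂ D b hb).symm q.1).1, q.2), ((bet j₂ N₂ D b hb).symm q.1).2)
      left_inv := fun p => by simp
      right_inv := fun q => by simp }
  let I₁ := ind N₁ (sec j₁ N₁ D a ha) (sec_mk j₁ N₁ D a ha) θ E₁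
  let I₂ := ind N₂ (sec j₂ N₂ D b hb) (sec_mk j₂ N₂ D b hb) θ' E₂
  let Φ₁ : A₁ →* mono (((C ⧸ D) × O₁) × O₂) M := I₁.codRestrict _ (fun g => ind_mono _ _ _ _ _ g)
  let Φ₂' : A₂ →* mono (((C ⧸ D) × O₁) × O₂) M := I₂.codRestrict _ (fun g => ind_mono _ _ _ _ _ g)
  let U : mono (((C ⧸ D) × O₁) × O₂) M := ⟨tw (fun x => u x.1.2 x.2), tw_mono _⟩
  let Φ₂ : A₂ →* mono (((C ⧸ D) × O₁) × O₂) M := (MulAut.conj U).toMonoidHom.comp Φ₂'
  have ne₁ : Nonempty O₁ := by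
    obtain ⟨p, _⟩ := ha.2 ((1 : A₁) : A₁ ⧸ N₁)
    exact ⟨p.2⟩
  have ne₂ : Nonempty O₂ := by
    obtain ⟨p, _⟩ := hb.2 ((1 : A₂) : A₂ ⧸ N₂)
    exact ⟨p.2⟩
  refine ⟨Φ₁, Φ₂, ?_, ?_, ?_⟩
  · intro c
    show Φ₁ (j₁ c) = U * Φ₂' (j₂ c) * U⁻¹
    rw [eq_mul_inv_iff_mul_eq]
    apply Subtype.ext
    apply Equiv.ext
    rintro ⟨⟨⟨x, o₁⟩, o₂⟩, m⟩
    show I₁ (j₁ c) (((x, o₁), o₂), u o₁ o₂ * m) =
      tw (fun x : ((C ⧸ D) × O₁) × O₂ => u x.1.2 x.2) (I₂ (j₂ c) (((x, o₁), o₂), m))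
    have hδ : (Quotient.out (c • x))⁻¹ * c * Quotient.out x ∈ D := by
      rw [mul_assoc, ← QuotientGroup.eq]
      have h2 : ((Quotient.out (c • x) : C) : C ⧸ D) = c • x := Quotient.out_eq _
      have h3 : ((Quotient.out x : C) : C ⧸ D) = x := Quotient.out_eq _
      rw [h2]
      conv_lhs => rw [← h3]
      rfl
    rw [show I₁ (j₁ c) (((x, o₁), o₂), u o₁ o₂ * m) = _ from ind_apply _ _ _ _ _ _ _ _,
      show I₂ (j₂ c) (((x, o₁), o₂), m) = _ from ind_apply _ _ _ _ _ _ _ _]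
    have k₁ : j₁ c • bet j₁ N₁ D a ha (x, o₁) = bet j₁ N₁ D a ha (c • x, o₁) :=
      smul_bet j₁ N₁ D hD₁ a ha c x o₁
    have k₂ : j₂ c • bet j₂ N₂ D b hb (x, o₂) = bet j₂ N₂ D b hb (c • x, o₂) :=
      smul_bet j₂ N₂ D hD₂ b hb c x o₂
    have l₁ : (sec j₁ N₁ D a ha (j₁ c • bet j₁ N₁ D a ha (x, o₁)))⁻¹ * j₁ c *
        sec j₁ N₁ D a ha (bet j₁ N₁ D a ha (x, o₁)) =
        (a o₁)⁻¹ * j₁ ((Quotient.out (c • x))⁻¹ * c * Quotient.out x) * a o₁ := by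
      rw [k₁, sec_bet, sec_bet]
      simp only [map_mul, map_inv]
      group
    have l₂ : (sec j₂ N₂ D b hb (j₂ c • bet j₂ N₂ D b hb (x, o₂)))⁻¹ * j₂ c *
        sec j₂ N₂ D b hb (bet j₂ N₂ D b hb (x, o₂)) =
        (b o₂)⁻¹ * j₂ ((Quotient.out (c • x))⁻¹ * c * Quotient.out x) * b o₂ := by
      rw [k₂, sec_bet, sec_bet]
      simp only [map_mul, map_inv]
      group
    have q₁ : (a o₁)⁻¹ * j₁ ((Quotient.out (c • x))⁻¹ * c * Quotient.out x) * a o₁ ∈ N₁ := by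
      rw [← l₁]
      exact kk_mem N₁ _ (sec_mk j₁ N₁ D a ha) _ _
    have q₂ : (b o₂)⁻¹ * j₂ ((Quotient.out (c • x))⁻¹ * c * Quotient.out x) * b o₂ ∈ N₂ := by
      rw [← l₂]
      exact kk_mem N₂ _ (sec_mk j₂ N₂ D b hb) _ _
    have hh := hu o₁ o₂ _ q₁ q₂ hδ
    apply Prod.ext
    · show E₁.symm (j₁ c • bet j₁ N₁ D a ha (x, o₁), o₂) =
        E₂.symm (j₂ c • bet j₂ N₂ D b hb (x, o₂), o₁)
      rw [k₁, k₂]
      rw [Equiv.symm_apply_eq]
      show _ = E₁ ((((bet j₂ N₂ D b hb).symm (bet j₂ N₂ D b hb (c • x, o₂))).1, o₁),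
        ((bet j₂ N₂ D b hb).symm (bet j₂ N₂ D b hb (c • x, o₂))).2)
      rw [Equiv.symm_apply_apply]
      rfl
    · show θ o₂ ⟨_, _⟩ * (u o₁ o₂ * m) =
        u (E₂.symm (j₂ c • bet j₂ N₂ D b hb (x, o₂), o₁)).1.2
          (E₂.symm (j₂ c • bet j₂ N₂ D b hb (x, o₂), o₁)).2 * (θ' o₁ ⟨_, _⟩ * m)
      have r : E₂.symm (j₂ c • bet j₂ N₂ D b hb (x, o₂), o₁) = ((c • x, o₁), o₂) := by
        rw [k₂]
        show ((((bet j₂ N₂ D b hb).symm (bet j₂ N₂ D b hb (c • x, o₂))).1, o₁),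
          ((bet j₂ N₂ D b hb).symm (bet j₂ N₂ D b hb (c • x, o₂))).2) = _
        rw [Equiv.symm_apply_apply]
      rw [r]
      rw [← mul_assoc, ← mul_assoc]
      congr 1
      refine Eq.trans ?_ (hh.trans ?_)
      · congr 2
        exact Subtype.ext l₁
      · congr 2
        exact Subtype.ext l₂.symm
  · intro h p q hpq
    exact ind_inj _ _ (sec_mk j₁ N₁ D a ha) θ E₁ h (congrArg Subtype.val hpq)
  · intro h p q hpq
    have h1 : Φ₂' p = Φ₂' q := (MulAut.conj U).injective hpq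
    exact ind_inj _ _ (sec_mk j₂ N₂ D b hb) θ' E₂ h (congrArg Subtype.val h1)

end Pool.Agent.Q31.RA
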