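import Pool.Agent.Q31.RA.Stm

set_option autoImplicit false

namespace Pool.Agent.Q31.RA

open Monoid

section

variable {ι : Type} {G : ι → Type} [∀ i, Group (G i)] {H : Type} [Group H]
  {φ : ∀ i, H →* G i} {P : Type} [Group P] (f : ∀ i, G i →* P) (f₀ : H →* P)

/-- the basis -/
abbrev YY (_f : ∀ i, G i →* P) (f₀ : H →* P) : Type := ι × (P ⧸ f₀.range)

/-- permutation of the basis -/
def pact : P →* MulAut (FreeGroup (YY f f₀)) where
  toFun p := FreeGroup.freeGroupCongr ((Equiv.refl ι).prodCongr (MulAction.toPerm p))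
  map_one' := by
    apply MulEquiv.toMonoidHom_injective
    apply FreeGroup.ext_hom
    rintro ⟨i, q⟩
    simp [Prod.map]
  map_mul' d e := by
    apply MulEquiv.toMonoidHom_injective
    apply FreeGroup.ext_hom
    rintro ⟨i, q⟩
    simp [Prod.map, mul_smul]

theorem pact_of (p : P) (i : ι) (q : P ⧸ f₀.range) :
    pact f f₀ p (FreeGroup.of (i, q)) = FreeGroup.of (i, p • q) := by
  simp [pact]

/-- the map on a factor -/
def Ti (i : ι) : G i →* FreeGroup (YY f f₀) ⋊[pact f f₀] P :=
  (MulAut.conj (SemidirectProduct.inl (FreeGroup.of (i, ((1 : P) : P ⧸ f₀.range))))).toMonoidHom.comp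
    (SemidirectProduct.inr.comp (f i))

theorem Ti_left (i : ι) (g : G i) : (Ti f f₀ i g).left =
    FreeGroup.of (i, ((1 : P) : P ⧸ f₀.range)) * (FreeGroup.of (i, ((f i g : P) : P ⧸ f₀.range)))⁻¹ := by
  simp only [Ti, MonoidHom.comp_apply, MulEquiv.coe_toMonoidHom, MulAut.conj_apply,
    SemidirectProduct.mul_left, SemidirectProduct.left_inl, SemidirectProduct.right_inl,
    SemidirectProduct.left_inr, map_one, mul_one, SemidirectProduct.mul_right,
    SemidirectProduct.right_inr, one_mul, ← map_inv SemidirectProduct.inl]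
  congr 1
  rw [map_inv, pact_of, MulAction.Quotient.smul_coe, smul_eq_mul, mul_one]

theorem Ti_right (i : ι) (g : G i) : (Ti f f₀ i g).right = f i g := by
  simp [Ti]

variable {f f₀} (hf : ∀ i, (f i).comp (φ i) = f₀)

/-- the map on the pushout -/
def Tp (hf : ∀ i, (f i).comp (φ i) = f₀) : PushoutI φ →* FreeGroup (YY f f₀) ⋊[pact f f₀] P :=
  PushoutI.lift (Ti f f₀) (SemidirectProduct.inr.comp f₀) (by
    intro i
    ext h
    · simp only [MonoidHom.comp_apply]
      rw [Ti_left, SemidirectProduct.left_inr]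
      have h1 : f i (φ i h) = f₀ h := DFunLike.congr_fun (hf i) h
      rw [h1]
      have h2 : ((f₀ h : P) : P ⧸ f₀.range) = ((1 : P) : P ⧸ f₀.range) := by
        rw [QuotientGroup.eq, mul_one]
        exact inv_mem ⟨h, rfl⟩
      rw [h2, mul_inv_cancel]
    · simp only [MonoidHom.comp_apply]
      rw [Ti_right, SemidirectProduct.right_inr]
      exact DFunLike.congr_fun (hf i) h)

theorem Tp_right (k : PushoutI φ) : (Tp hf k).right = PushoutI.lift f f₀ hf k := by
  have : (SemidirectProduct.rightHom.comp (Tp hf)) = PushoutI.lift f f₀ hf := by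
    apply PushoutI.hom_ext
    · intro i
      ext g
      simp [Tp, Ti]
    · ext h
      simp [Tp]
  exact DFunLike.congr_fun this k

/-- the word in the free group -/
def LL (f : ∀ i, G i →* P) (f₀ : H →* P) : P → List (Σ i, G i) → List (YY f f₀ × Bool)
  | _, [] => []
  | p, l :: L => ((l.1, (p : P ⧸ f₀.range)), true) ::
      ((l.1, ((p * f l.1 l.2 : P) : P ⧸ f₀.range)), false) :: LL f f₀ (p * f l.1 l.2) L

theorem LL_mk (L : List (Σ i, G i)) : ∀ p : P,
    pact f f₀ p (Tp hf (L.map (fun l => PushoutI.of (φ := φ) l.1 l.2)).prod).left =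
      FreeGroup.mk (LL f f₀ p L) := by
  induction L with
  | nil =>
    intro p
    simp only [List.map_nil, List.prod_nil, map_one, LL]
    exact (map_one _).trans FreeGroup.one_eq_mk
  | cons l L ih =>
    intro p
    have e : FreeGroup.mk (LL f f₀ p (l :: L)) =
        (FreeGroup.of (l.1, (p : P ⧸ f₀.range)) *
          (FreeGroup.of (l.1, ((p * f l.1 l.2 : P) : P ⧸ f₀.range)))⁻¹) *
        FreeGroup.mk (LL f f₀ (p * f l.1 l.2) L) := by
      show _ = (FreeGroup.mk [_] * FreeGroup.mk [(_, false)]) * _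
      rw [FreeGroup.mul_mk, FreeGroup.mul_mk]
      rfl
    have h1 : Tp hf (PushoutI.of (φ := φ) l.1 l.2) = Ti f f₀ l.1 l.2 := by
      simp [Tp]
    rw [e, ← ih, List.map_cons, List.prod_cons, map_mul, SemidirectProduct.mul_left, map_mul, h1,
      Ti_left, Ti_right]
    congr 1
    · rw [map_mul, map_inv, pact_of, pact_of, MulAction.Quotient.smul_coe,
        MulAction.Quotient.smul_coe, smul_eq_mul, smul_eq_mul, mul_one]
    · rw [← MulAut.mul_apply, ← map_mul]

theorem LL_red (L : List (Σ i, G i)) : ∀ p : P, L.IsChain (fun l l' => l.1 ≠ l'.1) →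
    (∀ l ∈ L, f l.1 l.2 ∉ f₀.range) → FreeGroup.IsReduced (LL f f₀ p L) := by
  induction L with
  | nil => intro p _ _; exact FreeGroup.IsReduced.nil
  | cons l L ih =>
    intro p h h'
    have h3 : (((l.1, (p : P ⧸ f₀.range)) : YY f f₀) =
        (l.1, ((p * f l.1 l.2 : P) : P ⧸ f₀.range))) → false = true := by
      intro e
      exfalso
      have e2 := (Prod.ext_iff.1 e).2
      simp only at e2
      rw [QuotientGroup.eq, inv_mul_cancel_left] at e2
      exact h' l (by simp) e2
    have h2 := ih (p * f l.1 l.2) (List.IsChain.tail h) (fun k hk => h' k (by simp [hk]))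
    cases L with
    | nil =>
      show FreeGroup.IsReduced (_ :: _ :: [])
      refine FreeGroup.isReduced_cons_cons.mpr ⟨?_, FreeGroup.IsReduced.singleton⟩
      intro e
      exact (h3 e).symm
    | cons l' L =>
      rw [List.isChain_cons_cons] at h
      show FreeGroup.IsReduced (_ :: _ :: _ :: _)
      refine FreeGroup.isReduced_cons_cons.mpr ⟨?_, FreeGroup.isReduced_cons_cons.mpr ⟨?_, h2⟩⟩
      · intro e
        exact (h3 e).symm
      · intro e
        exact absurd (Prod.ext_iff.1 e).1 h.1

end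

theorem t_Push : S_Push := by
  intro ι G _ H _ φ P _ f f₀ hf h w hw hl hk
  classical
  have hr : ∀ k : (PushoutI.lift f f₀ hf).ker, (Tp hf (k : PushoutI φ)).right = 1 :=
    fun k => (Tp_right hf k).trans k.2
  refine ⟨YY f f₀, MonoidHom.mk' (fun k => (Tp hf (k : PushoutI φ)).left) (by
    intro k k'
    show (Tp hf (k * k' : (PushoutI.lift f f₀ hf).ker)).left = _
    rw [Subgroup.coe_mul, map_mul, SemidirectProduct.mul_left, hr, map_one]
    rfl), ?_⟩
  intro e
  have h1 : (Tp hf (PushoutI.base φ h * PushoutI.ofCoprodI w.prod)).left = 1 := e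
  have hp : (PushoutI.ofCoprodI w.prod : PushoutI φ) =
      (w.toList.map (fun l => PushoutI.of (φ := φ) l.1 l.2)).prod := by
    rw [CoprodI.Word.prod, map_list_prod, List.map_map]
    congr 1
  have h2 := LL_mk hf w.toList (f₀ h)
  rw [map_mul, SemidirectProduct.mul_left, hp] at h1
  have h3 : Tp hf (PushoutI.base φ h) = SemidirectProduct.inr (f₀ h) := by
    simp [Tp]
  rw [h3, SemidirectProduct.left_inr, SemidirectProduct.right_inr, one_mul, h2] at h1
  have h4 := LL_red (f := f) (f₀ := f₀) w.toList (f₀ h) w.chain_ne hl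
  have h5 : LL f f₀ (f₀ h) w.toList = [] := by
    have h6 := congrArg FreeGroup.toWord h1
    rw [FreeGroup.toWord_one, FreeGroup.toWord_mk, h4.reduce_eq] at h6
    exact h6
  apply hw
  apply CoprodI.Word.ext
  cases hl' : w.toList with
  | nil => rfl
  | cons x l =>
    rw [hl'] at h5
    simp [LL] at h5

end Pool.Agent.Q31.RA
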