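import Pool.Agent.Q31.RA.Stm

set_option autoImplicit false

namespace Pool.Agent.Q31.RA

theorem vcyc_am (h1 : S_Ext) (h2 : S_Sub) (h3 : S_Fin) (h4 : S_Solv) (C : Type) [Group C]
    (hC : VCyc C) : Am C := by
  obtain ⟨c, hc⟩ := hC
  have hN : (Subgroup.zpowers c).normalCore.FiniteIndex := inferInstance
  refine h1 _ _ (QuotientGroup.mk' (Subgroup.zpowers c).normalCore) ?_ (h3 _ inferInstance)
  rw [QuotientGroup.ker_mk']
  apply h4
  apply Group.isSolvable_of_comm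
  rintro ⟨x, hx⟩ ⟨y, hy⟩
  apply Subtype.ext
  show x * y = y * x
  obtain ⟨a, ha⟩ := Subgroup.mem_zpowers_iff.1 (Subgroup.normalCore_le _ hx)
  obtain ⟨b, hb⟩ := Subgroup.mem_zpowers_iff.1 (Subgroup.normalCore_le _ hy)
  rw [← ha, ← hb]
  exact (Commute.refl c).zpow_zpow _ _

theorem sep_list (hProd : S_Prod) (hFin : S_Fin) (G : Type) [Group G] (hG : ResAm G)
    (L : List G) (hL : ∀ g ∈ L, g ≠ 1) :
    ∃ (B : Type) (_ : Group B) (ψ : G →* B), Am B ∧ ∀ g ∈ L, ψ g ≠ 1 := by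
  induction L with
  | nil => exact ⟨Unit, inferInstance, 1, hFin _ inferInstance, by simp⟩
  | cons a L ih =>
    obtain ⟨B, gB, ψ, hB, hψ⟩ := ih (fun g hg => hL g (by simp [hg]))
    obtain ⟨B', gB', ψ', hB', hψ'⟩ := hG a (hL a (by simp))
    refine ⟨B × B', inferInstance, ψ.prod ψ', hProd _ _ hB hB', ?_⟩
    intro g hg h
    rcases List.mem_cons.1 hg with rfl | hg
    · exact hψ' (Prod.ext_iff.1 h).2
    · exact hψ g hg (Prod.ext_iff.1 h).1

/-- virtual retracts pass to quotients -/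
theorem vr_quot {C G A : Type} [Group C] [Group G] [Group A] (j : C →* G) (K : Subgroup G)
    (hK : K.FiniteIndex) (h : ∀ c, j c ∈ K) (ρ : K →* C) (hρ : ∀ c, ρ ⟨j c, h c⟩ = c)
    (π : G →* A) (hπ : Function.Surjective π) (hk : ∀ (k : G) (hk : k ∈ K), π k = 1 → ρ ⟨k, hk⟩ = 1) :
    VR (π.comp j) := by
  let π' : K →* K.map π := (π.comp K.subtype).codRestrict _ (fun k => ⟨k, k.2, rfl⟩)
  have hs : Function.Surjective π' := by
    rintro ⟨_, k, hk, rfl⟩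
    exact ⟨⟨k, hk⟩, rfl⟩
  have hle : π'.ker ≤ ρ.ker := by
    rintro ⟨k, hk1⟩ hk2
    exact hk k hk1 (congrArg Subtype.val hk2)
  let ρ' : K.map π →* C := (MonoidHom.liftOfSurjective π' hs) ⟨ρ, hle⟩
  have hρ' : ∀ k : K, ρ' (π' k) = ρ k := fun k =>
    MonoidHom.liftOfRightInverse_comp_apply π' _ (Function.rightInverse_surjInv hs) ⟨ρ, hle⟩ k
  refine ⟨K.map π, ?_, fun c => ⟨j c, h c, rfl⟩, ρ', fun c => ?_⟩
  · refine ⟨?_⟩
    have h1 := Subgroup.index_map_dvd K hπ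
    exact ne_zero_of_dvd_ne_zero hK.index_ne_zero h1
  · have h1 := hρ' ⟨j c, h c⟩
    rw [hρ] at h1
    exact h1

theorem t_Red (hSub : S_Sub) (hExt : S_Ext) (hFin : S_Fin) (hProd : S_Prod) (hSolv : S_Solv)
    (hMono : S_Mono) : S_Red := by
  intro C G _ _ j hC hj hG S hS
  classical
  obtain ⟨K, hK, h, ρ, hρ⟩ := hj
  have hCa := vcyc_am hExt hSub hFin hSolv C hC
  have hs : ∀ f : G ⧸ K, ((Quotient.out f : G) : G ⧸ K) = f := fun f => Quotient.out_eq f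
  let π₀ : G →* mono ((G ⧸ K) × Unit) C :=
    (kk K Quotient.out hs (fun _ : Unit => ρ)).codRestrict _ (fun g => kk_mono _ _ _ _ g)
  have hπ₀ : ∀ k : G, π₀ k = 1 → ∃ hk : k ∈ K, ρ ⟨k, hk⟩ = 1 := by
    intro k hk
    have h1 : kk K Quotient.out hs (fun _ : Unit => ρ) k = 1 := congrArg Subtype.val hk
    have h2 := congrArg (fun e : Equiv.Perm (((G ⧸ K) × Unit) × C) =>
      e ((((1 : G) : G ⧸ K), ()), 1)) h1
    simp only [kk_apply, Equiv.Perm.coe_one, id, Prod.mk.injEq, and_true, mul_one] at h2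
    obtain ⟨h3, h4⟩ := h2
    have hkK : k ∈ K := by
      have h5 : ((k * 1 : G) : G ⧸ K) = ((1 : G) : G ⧸ K) := h3
      rw [mul_one] at h5
      have h6 := QuotientGroup.eq.1 h5.symm
      simpa using h6
    refine ⟨hkK, ?_⟩
    have hsK : Quotient.out ((1 : G) : G ⧸ K) ∈ K := by
      have h6 := QuotientGroup.eq.1 (hs ((1 : G) : G ⧸ K)).symm
      simpa using h6
    have h7 : (⟨(Quotient.out (k • ((1 : G) : G ⧸ K)))⁻¹ * k * Quotient.out ((1 : G) : G ⧸ K),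
        kk_mem K Quotient.out hs k ((1 : G) : G ⧸ K)⟩ : K) =
        (⟨_, hsK⟩ : K)⁻¹ * ⟨k, hkK⟩ * ⟨_, hsK⟩ := by
      apply Subtype.ext
      simp only [h3]
      rfl
    rw [h7, map_mul, map_mul, map_inv] at h4
    have h8 := congrArg (fun z => ρ ⟨_, hsK⟩ * z * (ρ ⟨_, hsK⟩)⁻¹) h4
    simpa [mul_assoc] using h8
  -- the elements to separate
  let L : List G := S.map (fun g => if hg : g ∈ K then (j (ρ ⟨g, hg⟩))⁻¹ * g else g)
  have hL : ∀ g ∈ L, g ≠ 1 := by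
    intro x hx h1
    simp only [L, List.mem_map] at hx
    obtain ⟨g, hg, rfl⟩ := hx
    split_ifs at h1 with h2
    · apply hS g hg
      exact ⟨ρ ⟨g, h2⟩, inv_mul_eq_one.1 h1⟩
    · rw [h1] at h2
      exact h2 (one_mem _)
  obtain ⟨B, gB, ψ, hB, hψ⟩ := sep_list hProd hFin G hG L hL
  let F : G →* mono ((G ⧸ K) × Unit) C × B := π₀.prod ψ
  have hF : Am (mono ((G ⧸ K) × Unit) C × B) :=
    hProd _ _ (hMono _ _ inferInstance hCa) hB
  refine ⟨F.range, inferInstance, F.rangeRestrict,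
    hSub _ _ F.range.subtype Subtype.val_injective hF, ?_, ?_⟩
  · refine vr_quot j K hK h ρ hρ F.rangeRestrict F.rangeRestrict_surjective ?_
    intro k hk h1
    have h2 : F k = 1 := congrArg Subtype.val h1
    obtain ⟨_, h3⟩ := hπ₀ k (Prod.ext_iff.1 h2).1
    exact h3
  · rintro g hg ⟨c, hc⟩
    have h1 : F (j c) = F g := congrArg Subtype.val hc
    have h2 : F (g⁻¹ * j c) = 1 := by
      rw [map_mul, map_inv, h1, inv_mul_cancel]
    obtain ⟨hk, h3⟩ := hπ₀ _ (Prod.ext_iff.1 h2).1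
    have hgK : g ∈ K := by
      have h4 := mul_mem (h c) (inv_mem hk)
      simpa using h4
    have h5 : ρ ⟨g, hgK⟩ = c := by
      have h6 : (⟨g⁻¹ * j c, hk⟩ : K) = (⟨g, hgK⟩ : K)⁻¹ * ⟨j c, h c⟩ := rfl
      rw [h6, map_mul, map_inv, hρ, inv_mul_eq_one] at h3
      exact h3
    have h7 := hψ (if hg : g ∈ K then (j (ρ ⟨g, hg⟩))⁻¹ * g else g) (List.mem_map.2 ⟨g, hg, rfl⟩)
    rw [dif_pos hgK, h5] at h7
    apply h7
    have h8 : ψ (g⁻¹ * j c) = 1 := (Prod.ext_iff.1 h2).2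
    rw [map_mul, map_inv] at h8 ⊢
    rw [inv_mul_eq_one] at h8 ⊢
    exact h8.symm

end Pool.Agent.Q31.RA
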