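import Pool.Agent.Q31.RA.Stm

set_option autoImplicit false

namespace Pool.Agent.Q31.RA

open Multiplicative

/-- the shift on functions `ℤ → M` -/
def shA (M : Type) [Group M] : Multiplicative ℤ →* MulAut (ℤ → M) where
  toFun s :=
    { toFun := fun F k => F (k - toAdd s)
      invFun := fun F k => F (k + toAdd s)
      left_inv := fun F => by funext k; simp
      right_inv := fun F => by funext k; simp
      map_mul' := fun F F' => rfl }
  map_one' := by
    ext F k
    simp
  map_mul' s t := by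
    ext F k
    show F (k - toAdd (s * t)) = F (k - toAdd s - toAdd t)
    rw [toAdd_mul]
    congr 1
    ring

theorem shA_apply {M : Type} [Group M] (s : Multiplicative ℤ) (F : ℤ → M) (k : ℤ) :
    shA M s F k = F (k - toAdd s) := rfl

section

variable {A M : Type} [Group A] [Group M] (p q : A →* M) (Ψ : M →* Multiplicative ℤ)

/-- the group `U` -/
def UU : Subgroup (ℤ → M) where
  carrier := {F | (∀ k, Ψ (F k) = Ψ (F 0)) ∧ ∃ n : ℕ, (∀ k : ℤ, (n : ℤ) < k → F k ∈ p.range) ∧
    ∀ k : ℤ, k < -(n : ℤ) → F k ∈ q.range}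
  mul_mem' := by
    rintro F F' ⟨h1, n, h2, h3⟩ ⟨h1', n', h2', h3'⟩
    refine ⟨fun k => by rw [Pi.mul_apply, Pi.mul_apply, map_mul, map_mul, h1, h1'],
      n + n', fun k hk => ?_, fun k hk => ?_⟩
    · exact mul_mem (h2 k (by push_cast at hk; omega)) (h2' k (by push_cast at hk; omega))
    · exact mul_mem (h3 k (by push_cast at hk; omega)) (h3' k (by push_cast at hk; omega))
  one_mem' := ⟨fun k => rfl, 0, fun k _ => one_mem _, fun k _ => one_mem _⟩
  inv_mem' := by
    rintro F ⟨h1, n, h2, h3⟩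
    refine ⟨fun k => by rw [Pi.inv_apply, Pi.inv_apply, map_inv, map_inv, h1], n,
      fun k hk => inv_mem (h2 k hk), fun k hk => inv_mem (h3 k hk)⟩

theorem UU_shift (s : Multiplicative ℤ) {F : ℤ → M} (hF : F ∈ UU p q Ψ) :
    shA M s F ∈ UU p q Ψ := by
  obtain ⟨h1, n, h2, h3⟩ := hF
  refine ⟨fun k => by rw [shA_apply, shA_apply, h1, h1 (0 - toAdd s)], n + (toAdd s).natAbs,
    fun k hk => ?_, fun k hk => ?_⟩
  · rw [shA_apply]
    exact h2 _ (by push_cast at hk; have := le_abs_self (toAdd s); omega)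
  · rw [shA_apply]
    exact h3 _ (by push_cast at hk; have := neg_abs_le (toAdd s); omega)

/-- the group `B` -/
def BB : Subgroup ((ℤ → M) ⋊[shA M] Multiplicative ℤ) where
  carrier := {w | w.left ∈ UU p q Ψ}
  mul_mem' := by
    intro w w' h h'
    show w.left * (shA M w.right) w'.left ∈ UU p q Ψ
    exact mul_mem h (UU_shift p q Ψ _ h')
  one_mem' := one_mem (UU p q Ψ)
  inv_mem' := by
    intro w h
    show (shA M w.right⁻¹) w.left⁻¹ ∈ UU p q Ψ
    exact UU_shift p q Ψ _ (inv_mem h)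

/-- the pieces of `U` -/
def UN (n : ℕ) : Subgroup (UU p q Ψ) where
  carrier := {F | (∀ k : ℤ, (n : ℤ) < k → (F : ℤ → M) k ∈ p.range) ∧
    ∀ k : ℤ, k < -(n : ℤ) → (F : ℤ → M) k ∈ q.range}
  mul_mem' := by
    rintro F F' ⟨h2, h3⟩ ⟨h2', h3'⟩
    exact ⟨fun k hk => mul_mem (h2 k hk) (h2' k hk), fun k hk => mul_mem (h3 k hk) (h3' k hk)⟩
  one_mem' := ⟨fun k _ => one_mem _, fun k _ => one_mem _⟩
  inv_mem' := by
    rintro F ⟨h2, h3⟩
    exact ⟨fun k hk => inv_mem (h2 k hk), fun k hk => inv_mem (h3 k hk)⟩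

theorem UN_am (hSub : S_Sub) (hExt : S_Ext) (hPi : S_Pi) (hSolv : S_Solv) (hM : Am M)
    (hp : ∀ x y, p x * p y = p y * p x) (hq : ∀ x y, q x * q y = q y * q x) (n : ℕ) :
    Am (UN p q Ψ n) := by
  let r : UN p q Ψ n →* ((Set.Icc (-(n : ℤ)) n) → M) :=
    { toFun := fun F k => ((F : UU p q Ψ) : ℤ → M) k
      map_one' := rfl
      map_mul' := fun F F' => rfl }
  refine hExt _ _ r ?_ (hPi _ _ inferInstance hM)
  apply hSolv
  apply Group.isSolvable_of_comm
  rintro ⟨⟨⟨F, hF⟩, h1, h2⟩, h3⟩ ⟨⟨⟨F', hF'⟩, h1', h2'⟩, h3'⟩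
  apply Subtype.ext
  apply Subtype.ext
  apply Subtype.ext
  funext k
  show F k * F' k = F' k * F k
  by_cases hk : (n : ℤ) < k
  · obtain ⟨x, hx⟩ := h1 k hk
    obtain ⟨y, hy⟩ := h1' k hk
    simp only at hx hy
    rw [← hx, ← hy, hp]
  by_cases hk' : k < -(n : ℤ)
  · obtain ⟨x, hx⟩ := h2 k hk'
    obtain ⟨y, hy⟩ := h2' k hk'
    simp only at hx hy
    rw [← hx, ← hy, hq]
  · have e1 : F k = 1 := congrFun h3 ⟨k, by constructor <;> omega⟩
    have e2 : F' k = 1 := congrFun h3' ⟨k, by constructor <;> omega⟩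
    rw [e1, e2]

theorem UU_am (hSub : S_Sub) (hExt : S_Ext) (hPi : S_Pi) (hSolv : S_Solv) (hDir : S_Dir)
    (hM : Am M) (hp : ∀ x y, p x * p y = p y * p x) (hq : ∀ x y, q x * q y = q y * q x) :
    Am (UU p q Ψ) := by
  refine hDir _ (UN p q Ψ) ?_ ?_ (UN_am p q Ψ hSub hExt hPi hSolv hM hp hq)
  · rintro a b hab F ⟨h1, h2⟩
    exact ⟨fun k hk => h1 k (by omega), fun k hk => h2 k (by omega)⟩
  · rintro ⟨F, h0, n, h1, h2⟩
    exact ⟨n, h1, h2⟩

theorem BB_am (hSub : S_Sub) (hExt : S_Ext) (hPi : S_Pi) (hSolv : S_Solv) (hDir : S_Dir)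
    (hM : Am M) (hp : ∀ x y, p x * p y = p y * p x) (hq : ∀ x y, q x * q y = q y * q x) :
    Am (BB p q Ψ) := by
  let r : BB p q Ψ →* Multiplicative ℤ := SemidirectProduct.rightHom.comp (BB p q Ψ).subtype
  refine hExt _ _ r ?_ (hSolv _ (Group.isSolvable_of_comm (fun a b => mul_comm a b)))
  let i : r.ker →* UU p q Ψ :=
    { toFun := fun w => ⟨(w : BB p q Ψ).1.left, (w : BB p q Ψ).2⟩
      map_one' := rfl
      map_mul' := by
        rintro ⟨⟨w, hw⟩, h⟩ ⟨⟨w', hw'⟩, h'⟩
        apply Subtype.ext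
        show w.left * (shA M w.right) w'.left = w.left * w'.left
        have : w.right = 1 := h
        rw [this, map_one]
        rfl }
  refine hSub _ _ i ?_ (UU_am p q Ψ hSub hExt hPi hSolv hDir hM hp hq)
  rintro ⟨⟨w, hw⟩, h⟩ ⟨⟨w', hw'⟩, h'⟩ he
  apply Subtype.ext
  apply Subtype.ext
  have h1 : w.right = 1 := h
  have h2 : w'.right = 1 := h'
  exact SemidirectProduct.ext (congrArg Subtype.val he) (h1.trans h2.symm)

/-- the hom to `ℤ` -/
def BBΨ : BB p q Ψ →* Multiplicative ℤ where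
  toFun w := Ψ (w.1.left 0)
  map_one' := by
    show Ψ 1 = 1
    rw [map_one]
  map_mul' := by
    rintro ⟨w, hw⟩ ⟨w', hw'⟩
    show Ψ (w.left 0 * w'.left (0 - toAdd w.right)) = _
    rw [map_mul, hw'.1]

end

theorem t_Shift (hSub : S_Sub) (hExt : S_Ext) (hPi : S_Pi) (hSolv : S_Solv) (hDir : S_Dir) :
    S_Shift := by
  intro A M _ _ c p q e f Ψ hM hc hp hq h1 h2 h3 h4 h5 h6
  let F : A → ℤ → M := fun g k => if 0 < k then p g else if k < 0 then q g else c g
  have F0 : ∀ g, F g 0 = c g := fun g => by simp [F]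
  have hF : ∀ g, F g ∈ UU p q Ψ := by
    intro g
    refine ⟨fun k => ?_, 0, fun k hk => ?_, fun k hk => ?_⟩
    · rw [F0]
      simp only [F]
      split_ifs
      · rw [h5]
      · rw [h6]
      · rfl
    · simp only [F]
      rw [if_pos (by simpa using hk)]
      exact ⟨g, rfl⟩
    · simp only [F]
      rw [if_neg (by simp at hk; omega), if_pos (by simpa using hk)]
      exact ⟨g, rfl⟩
  let i : A →* BB p q Ψ :=
    { toFun := fun g => ⟨⟨F g, 1⟩, hF g⟩
      map_one' := by
        apply Subtype.ext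
        apply SemidirectProduct.ext
        · funext k
          show F 1 k = 1
          simp [F]
        · rfl
      map_mul' := by
        intro g g'
        apply Subtype.ext
        apply SemidirectProduct.ext
        · funext k
          show F (g * g') k = F g k * F g' (k - toAdd (1 : Multiplicative ℤ))
          rw [toAdd_one, sub_zero]
          simp only [F]
          split_ifs <;> rw [map_mul]
        · rfl }
  let x : BB p q Ψ := ⟨⟨1, ofAdd 1⟩, one_mem (UU p q Ψ)⟩
  refine ⟨BB p q Ψ, inferInstance, i, x, BBΨ p q Ψ,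
    BB_am p q Ψ hSub hExt hPi hSolv hDir hM hp hq, ?_, ?_, ?_⟩
  · intro g g' h
    apply hc
    rw [← F0, ← F0]
    exact congrArg (fun w : BB p q Ψ => w.1.left 0) h
  · rw [mul_inv_eq_iff_eq_mul]
    apply Subtype.ext
    apply SemidirectProduct.ext
    · funext k
      show 1 * F e (k - toAdd (ofAdd (1 : ℤ))) = F f k * 1
      rw [one_mul, mul_one, toAdd_ofAdd]
      simp only [F]
      rcases lt_trichotomy k 0 with hk | hk | hk
      · rw [if_neg (by omega), if_pos (by omega), if_neg (by omega), if_pos (by omega), h3]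
      · rw [if_neg (by omega), if_pos (by omega), if_neg (by omega), if_neg (by omega), h3, h4]
      · rcases eq_or_lt_of_le (show (1 : ℤ) ≤ k by omega) with hk1 | hk1
        · rw [if_neg (by omega), if_neg (by omega), if_pos (by omega), h1, h2]
        · rw [if_pos (by omega), if_pos (by omega), h1]
    · show ofAdd (1 : ℤ) * 1 = 1 * ofAdd (1 : ℤ)
      rw [mul_one, one_mul]
  · intro a
    show Ψ (F a 0) = Ψ (c a)
    rw [F0]

end Pool.Agent.Q31.RA
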