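import Pool.Agent.Q31.RA.Am
import Pool.Agent.Q31.RA.Comb
import Pool.Agent.Q31.RA.Final
import Pool.Agent.Q31.RA.Match
import Pool.Agent.Q31.RA.Push
import Pool.Agent.Q31.RA.Red
import Pool.Agent.Q31.RA.Shift

set_option autoImplicit false

namespace Pool.Agent.Q31.RA

theorem main (hDec : S_Decomp) (hPot : S_Pot) (hGen : S_Gen) (hRoot : S_Root) : S_Final := by
  have hShift := t_Shift t_Sub t_Ext t_Pi t_Solv t_Dir
  exact t_Final t_Ext t_Solv (t_Red t_Sub t_Ext t_Fin t_Prod t_Solv t_Mono)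
    (t_Comb t_Sub t_Prod t_Solv t_Mono hDec t_Match hPot hGen (t_Conjs (t_Conj hRoot hShift)))
    t_Push

end Pool.Agent.Q31.RA
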