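import Pool.Agent.Q31.RA.Stm

set_option autoImplicit false

/-!
From the index-free form of the amalgam to Mathlib's `PushoutI`.
-/

namespace Pool.Agent.Q31.RA

open Monoid

section

variable {G₁ G₂ H : Type} [Group G₁] [Group G₂] [Group H] (f₁ : H →* G₁) (f₂ : H →* G₂)

/-- the amalgam as a quotient of the free product -/
abbrev Amal : Type :=
  Coprod G₁ G₂ ⧸ Subgroup.normalClosure
    (Set.range fun x : H => (Coprod.inl (f₁ x) * (Coprod.inr (f₂ x))⁻¹ : Coprod G₁ G₂))

/-- the family -/
abbrev Fam (G₁ G₂ : Type) : Bool → Type := fun i => match i with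
  | false => G₁
  | true => G₂

instance famGroup : ∀ i, Group (Fam G₁ G₂ i) := fun i => match i with
  | false => (inferInstance : Group G₁)
  | true => (inferInstance : Group G₂)

/-- the family of maps -/
def famMap : ∀ i, H →* Fam G₁ G₂ i := fun i => match i with
  | false => f₁
  | true => f₂

/-- from the amalgam to the pushout -/
def toP : Amal f₁ f₂ →* PushoutI (famMap f₁ f₂) :=
  QuotientGroup.lift _ (Coprod.lift (PushoutI.of (φ := famMap f₁ f₂) false)
      (PushoutI.of (φ := famMap f₁ f₂) true)) (by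
    intro x hx
    have h1 : Subgroup.normalClosure (Set.range fun x : H =>
        (Coprod.inl (f₁ x) * (Coprod.inr (f₂ x))⁻¹ : Coprod G₁ G₂)) ≤
        (Coprod.lift (PushoutI.of (φ := famMap f₁ f₂) false)
          (PushoutI.of (φ := famMap f₁ f₂) true)).ker := by
      apply Subgroup.normalClosure_le_normal
      rintro _ ⟨y, rfl⟩
      show _ = _
      rw [map_mul, map_inv]
      rw [Coprod.lift_apply_inl, Coprod.lift_apply_inr, mul_inv_eq_one]
      exact (PushoutI.of_apply_eq_base (famMap f₁ f₂) false y).trans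
        (PushoutI.of_apply_eq_base (famMap f₁ f₂) true y).symm
    exact h1 hx)

/-- from the pushout to the amalgam -/
def fromP : PushoutI (famMap f₁ f₂) →* Amal f₁ f₂ :=
  PushoutI.lift (fun i => match i with
    | false => (QuotientGroup.mk' _).comp Coprod.inl
    | true => (QuotientGroup.mk' _).comp Coprod.inr)
    ((QuotientGroup.mk' _).comp (Coprod.inl.comp f₁)) (by
      intro i
      cases i with
      | false => rfl
      | true =>
        ext x
        show (QuotientGroup.mk (Coprod.inr (f₂ x)) : Amal f₁ f₂) =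
          QuotientGroup.mk (Coprod.inl (f₁ x))
        rw [eq_comm, ← mul_inv_eq_one, ← QuotientGroup.mk_inv, ← QuotientGroup.mk_mul,
          QuotientGroup.eq_one_iff]
        exact Subgroup.subset_normalClosure ⟨x, rfl⟩)

theorem from_to (x : Amal f₁ f₂) : fromP f₁ f₂ (toP f₁ f₂ x) = x := by
  have h : (fromP f₁ f₂).comp (toP f₁ f₂) = MonoidHom.id _ := by
    apply QuotientGroup.monoidHom_ext
    apply Coprod.hom_ext
    · ext y
      show fromP f₁ f₂ (Coprod.lift (PushoutI.of (φ := famMap f₁ f₂) false)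
        (PushoutI.of (φ := famMap f₁ f₂) true) (Coprod.inl y)) = _
      rw [Coprod.lift_apply_inl]
      exact PushoutI.lift_of _ _ _ _
    · ext y
      show fromP f₁ f₂ (Coprod.lift (PushoutI.of (φ := famMap f₁ f₂) false)
        (PushoutI.of (φ := famMap f₁ f₂) true) (Coprod.inr y)) = _
      rw [Coprod.lift_apply_inr]
      exact PushoutI.lift_of _ _ _ _
  exact DFunLike.congr_fun h x

end

/-- the public form from `S_Final` -/
theorem pub (h : S_Final) (G₁ G₂ H : Type) [Group G₁] [Group G₂] [Group H] (f₁ : H →* G₁)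
    (f₂ : H →* G₂) (r₁ : ResAm G₁) (r₂ : ResAm G₂) (hH : VCyc H) (v₁ : VR f₁) (v₂ : VR f₂) :
    ResAm (Amal f₁ f₂) := by
  intro g hg
  have hP : ResAm (PushoutI (famMap f₁ f₂)) := h (Fam G₁ G₂) H (famMap f₁ f₂)
    (fun i => match i with
      | false => r₁
      | true => r₂) hH (fun i => match i with
      | false => v₁
      | true => v₂)
  obtain ⟨A, gA, φ, hA, hφ⟩ := hP (toP f₁ f₂ g) (by
    intro h1
    apply hg
    rw [← from_to f₁ f₂ g, h1, map_one])
  exact ⟨A, gA, φ.comp (toP f₁ f₂), hA, hφ⟩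

/-- from a virtual retract as a subgroup to `VR` -/
theorem vr_of_range {G H : Type} [Group G] [Group H] (f : H →* G) (hf : Function.Injective f)
    (h : ∃ (K : Subgroup G) (_ : K.FiniteIndex) (hK : f.range ≤ K) (ρ : K →* f.range),
      ∀ x : f.range, ρ ⟨x, hK x.2⟩ = x) : VR f := by
  obtain ⟨K, hK, hle, ρ, hρ⟩ := h
  refine ⟨K, hK, fun c => hle ⟨c, rfl⟩,
    (MonoidHom.ofInjective hf).symm.toMonoidHom.comp ρ, fun c => ?_⟩
  show (MonoidHom.ofInjective hf).symm (ρ ⟨f c, _⟩) = c
  rw [MulEquiv.symm_apply_eq]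
  exact hρ ⟨f c, c, rfl⟩

theorem vcyc_of {H : Type} [Group H] (h : ∃ Z : Subgroup H, IsCyclic Z ∧ Z.FiniteIndex) :
    VCyc H := by
  obtain ⟨Z, ⟨z, hz⟩, hZ⟩ := h
  refine ⟨z, ?_⟩
  have : Subgroup.zpowers (z : H) = Z := by
    apply le_antisymm
    · rw [Subgroup.zpowers_le]
      exact z.2
    · intro x hx
      obtain ⟨n, hn⟩ := Subgroup.mem_zpowers_iff.1 (hz ⟨x, hx⟩)
      exact Subgroup.mem_zpowers_iff.2 ⟨n, congrArg Subtype.val hn⟩
  rw [this]
  exact hZ

end Pool.Agent.Q31.RA
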