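import Pool.Agent.Q31.RA.Stm

set_option autoImplicit false

namespace Pool.Agent.Q31.RA

open Multiplicative

section

variable {A : Type} [Group A]

/-- constant elements -/
def cst (n : ℕ) : A →* mono (ZMod n) A where
  toFun g := ⟨{ toFun := fun p => (p.1, g * p.2)
                invFun := fun p => (p.1, g⁻¹ * p.2)
                left_inv := fun p => by simp
                right_inv := fun p => by simp }, fun x m => by simp⟩
  map_one' := by
    apply Subtype.ext
    apply Equiv.ext
    rintro ⟨x, m⟩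
    show (x, 1 * m) = (x, m)
    rw [one_mul]
  map_mul' g h := by
    apply Subtype.ext
    apply Equiv.ext
    rintro ⟨x, m⟩
    show (x, g * h * m) = (x, g * (h * m))
    rw [mul_assoc]

theorem cst_apply (n : ℕ) (g : A) (x : ZMod n) (m : A) :
    ((cst n g : mono (ZMod n) A) : Equiv.Perm (ZMod n × A)) (x, m) = (x, g * m) := rfl

/-- the root -/
def rt (n : ℕ) (e : A) : mono (ZMod n) A :=
  ⟨{ toFun := fun p => (p.1 + 1, (if p.1 + 1 = 0 then e else 1) * p.2)
     invFun := fun p => (p.1 - 1, (if p.1 = 0 then e else 1)⁻¹ * p.2)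
     left_inv := fun p => by simp only [add_sub_cancel_right, inv_mul_cancel_left]
     right_inv := fun p => by simp }, fun x m => by simp⟩

theorem rt_apply (n : ℕ) (e : A) (x : ZMod n) (m : A) :
    ((rt n e : mono (ZMod n) A) : Equiv.Perm (ZMod n × A)) (x, m) =
      (x + 1, (if x + 1 = 0 then e else 1) * m) := rfl

theorem rt_pow (n : ℕ) (e : A) (k : ℕ) (x : ZMod n) (m : A) :
    (((rt n e) ^ k : mono (ZMod n) A) : Equiv.Perm (ZMod n × A)) (x, m) =
      (x + k, e ^ ((Finset.range k).filter (fun t : ℕ => x + t + 1 = 0)).card * m) := by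
  induction k generalizing x m with
  | zero => simp
  | succ k ih =>
    rw [pow_succ']
    show ((rt n e : mono (ZMod n) A) : Equiv.Perm (ZMod n × A))
      ((((rt n e) ^ k : mono (ZMod n) A) : Equiv.Perm (ZMod n × A)) (x, m)) = _
    rw [ih, rt_apply, Finset.range_add_one, Finset.filter_insert]
    split_ifs with h
    · rw [Finset.card_insert_of_notMem (by simp), pow_succ', mul_assoc]
      push_cast
      rw [add_assoc]
    · rw [one_mul]
      push_cast
      rw [add_assoc]

theorem rt_pow_n (n : ℕ) (hn : 0 < n) (e : A) : (rt n e) ^ n = cst n e := by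
  apply Subtype.ext
  apply Equiv.ext
  rintro ⟨x, m⟩
  rw [rt_pow, cst_apply]
  have : NeZero n := ⟨hn.ne'⟩
  have h1 : ((Finset.range n).filter (fun t : ℕ => x + t + 1 = 0)).card = 1 := by
    rw [Finset.card_eq_one]
    refine ⟨(-(x + 1) : ZMod n).val, ?_⟩
    ext t
    simp only [Finset.mem_filter, Finset.mem_range, Finset.mem_singleton]
    constructor
    · rintro ⟨h1, h2⟩
      have h3 : (-(x + 1) : ZMod n) = (t : ZMod n) := by
        linear_combination -h2
      rw [h3, ZMod.val_natCast_of_lt h1]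
    · rintro rfl
      refine ⟨ZMod.val_lt _, ?_⟩
      rw [ZMod.natCast_zmod_val]
      ring
  rw [h1, pow_one, ZMod.natCast_self, add_zero]

/-- the character -/
noncomputable def chr (n : ℕ) [NeZero n] (Ψ : A →* Multiplicative ℤ) :
    mono (ZMod n) A →* Multiplicative ℤ where
  toFun π := ∏ i : ZMod n, Ψ ((π : Equiv.Perm (ZMod n × A)) (i, 1)).2
  map_one' := by simp
  map_mul' := by
    intro π σ
    have hp : ∀ (π : mono (ZMod n) A) x m, (π : Equiv.Perm (ZMod n × A)) (x, m) =
        (((π : Equiv.Perm (ZMod n × A)) (x, 1)).1, ((π : Equiv.Perm (ZMod n × A)) (x, 1)).2 * m) :=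
      fun π => π.2
    have hmul : ∀ x, ((π * σ : mono (ZMod n) A) : Equiv.Perm (ZMod n × A)) (x, 1) =
        (((π : Equiv.Perm (ZMod n × A)) (((σ : Equiv.Perm (ZMod n × A)) (x, 1)).1, 1)).1,
          ((π : Equiv.Perm (ZMod n × A)) (((σ : Equiv.Perm (ZMod n × A)) (x, 1)).1, 1)).2 *
            ((σ : Equiv.Perm (ZMod n × A)) (x, 1)).2) := fun x => hp π _ _
    simp only [hmul, map_mul]
    rw [Finset.prod_mul_distrib]
    congr 1
    have hinj : Function.Injective
        (fun x : ZMod n => ((σ : Equiv.Perm (ZMod n × A)) (x, 1)).1) := by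
      intro x y hxy
      simp only at hxy
      have h1 : (σ : Equiv.Perm (ZMod n × A)) (x, (((σ : Equiv.Perm (ZMod n × A)) (x, 1)).2)⁻¹) =
          (σ : Equiv.Perm (ZMod n × A)) (y, (((σ : Equiv.Perm (ZMod n × A)) (y, 1)).2)⁻¹) := by
        rw [hp, hp σ y, hxy, mul_inv_cancel, mul_inv_cancel]
      exact (Prod.ext_iff.1 ((σ : Equiv.Perm (ZMod n × A)).injective h1)).1
    have hbij := Finite.injective_iff_bijective.1 hinj
    exact Function.Bijective.prod_comp hbij
      (fun i => Ψ ((π : Equiv.Perm (ZMod n × A)) (i, 1)).2)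

end

theorem t_Root (hMono : S_Mono) : S_Root := by
  intro A _ Ψ n hn hA
  have : NeZero n := ⟨hn.ne'⟩
  refine ⟨mono (ZMod n) A, inferInstance, cst n, chr n Ψ, hMono _ _ inferInstance hA, ?_, ?_, ?_⟩
  · intro g h hgh
    have h1 := congrArg (fun π : mono (ZMod n) A => ((π : Equiv.Perm (ZMod n × A)) (0, 1)).2) hgh
    simpa [cst_apply] using h1
  · intro a
    show ∏ i : ZMod n, Ψ (((cst n a : mono (ZMod n) A) : Equiv.Perm (ZMod n × A)) (i, 1)).2 = _
    simp only [cst_apply, mul_one]
    rw [Finset.prod_const, Finset.card_univ, ZMod.card]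
  · intro e
    refine ⟨rt n e, rt_pow_n n hn e, ?_⟩
    show ∏ i : ZMod n, Ψ (((rt n e : mono (ZMod n) A) : Equiv.Perm (ZMod n × A)) (i, 1)).2 = _
    simp only [rt_apply, mul_one]
    rw [Finset.prod_eq_single (-1 : ZMod n)]
    · simp
    · intro i _ hi
      rw [if_neg, map_one]
      intro h
      exact hi (eq_neg_of_add_eq_zero_left h)
    · simp

end Pool.Agent.Q31.RA
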