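import Mathlib
import Pool.Agent.H883B.Stmts

set_option autoImplicit false

/-!
# Project RA (helper31): residual amenability of amalgams over virtually cyclic virtual retracts
(row MP_71554c_al).

THEOREM.  Let `G = G_1 *_C G_2` with `G_1, G_2` residually amenable, `C` virtually cyclic and a virtual
retract of both.  Then `G` is residually amenable.

PROOF IN SHORT.  (1) For a finite list of letters outside `C` choose amenable quotients `A_i` of `G_i`
in which `C` embeds as a virtual retract and the letters stay outside `C` (`S_Red`).  (2) There are an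
amenable group `P` and injective homomorphisms `A_i → P` which agree on `C` (`S_Comb`).  (3) The
kernel of `G → P` maps to a free group so that the given word survives (`S_Push`); free groups are
residually solvable, so the word survives in a solvable-by-amenable quotient.

For (2): there are normal subgroups `N_i` of finite index in `A_i` with `C ∩ N_1 = C ∩ N_2 = ⟨e⟩`
infinite cyclic and characters `χ_i : N_i → ℤ` with `χ_i (a⁻¹ e a) ≠ 0` for all `a` (`S_Pot`, `S_Gen`);
`A_i` acts on `(A_i / N_i) × L × M` for every family of homomorphisms `N_i → M` indexed by `L`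
(`kk`); if the elements `a⁻¹ e a` and `b⁻¹ e b` have conjugate images in the amenable group `M`, the two
actions can be matched over `C` (`S_Match`).  Finally two elements `e, f` of an amenable group with the
same non-zero value of a character become conjugate in an amenable overgroup (`S_Conj`, by
`S_Root` and `S_Shift`).
-/

namespace Pool.Agent.Q31.RA

/-- `G` is amenable (a left-invariant finitely additive probability measure on all subsets). -/
abbrev Am (G : Type) [Group G] : Prop := Pool.Agent.H883B.IsAmenable G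

/-- `j : C → A` is a virtual retract: `A` has a subgroup `K` of finite index which contains the
image of `j`, with a homomorphism `ρ : K → C` such that `ρ (j c) = c`. -/
def VR {C A : Type} [Group C] [Group A] (j : C →* A) : Prop :=
  ∃ (K : Subgroup A) (_ : K.FiniteIndex) (h : ∀ c, j c ∈ K) (ρ : K →* C),
    ∀ c, ρ ⟨j c, h c⟩ = c

/-- `C` has a cyclic subgroup of finite index. -/
def VCyc (C : Type) [Group C] : Prop := ∃ c : C, (Subgroup.zpowers c).FiniteIndex

/-- `G` is residually amenable. -/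
def ResAm (G : Type) [Group G] : Prop :=
  ∀ g : G, g ≠ 1 → ∃ (A : Type) (_ : Group A) (f : G →* A), Am A ∧ f g ≠ 1

/-! ## The amenability toolbox

Available: `Pool.Agent.H883B.taskExt`, `taskRestrict`, `taskDirected`, `taskQuot` (files
`Pool/Agent/H883B/TaskExt.lean`, `TaskRestrict.lean`, `TaskDirected.lean`, `Quot.lean`, `Radical.lean`),
and `Pool.Agent.H476RA.amen_of_locsolv` (file `Pool/Agent/H476RA/TaskB.lean`; solvable groups). -/

/-- Subgroups: use `taskRestrict` with `S` the range of `f`, and transport by `A ≃* f.range`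
(`taskQuot` applied to the inverse isomorphism). -/
def S_Sub : Prop := ∀ (A B : Type) [Group A] [Group B] (f : A →* B), Function.Injective f →
  Am B → Am A

/-- Extensions: `taskExt` with `K = f.ker`; `A ⧸ f.ker ≃* f.range ≤ B`. -/
def S_Ext : Prop := ∀ (A B : Type) [Group A] [Group B] (f : A →* B), Am f.ker → Am B → Am A

/-- Solvable groups: `Pool.Agent.H476RA.amen_of_locsolv` with `A = Multiplicative ℤ` (or any
commutative group) and `χ = 1`. -/
def S_Solv : Prop := ∀ (A : Type) [Group A], Group.IsSolvable A → Am A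

/-- Finite groups (counting measure). -/
def S_Fin : Prop := ∀ (A : Type) [Group A], Finite A → Am A

/-- Products of two groups: the kernel of `Prod.snd` is isomorphic to `A`. -/
def S_Prod : Prop := ∀ (A B : Type) [Group A] [Group B], Am A → Am B → Am (A × B)

/-- Finite powers (induction on the finite type `X`, e.g. first `X = Fin n`). -/
def S_Pi : Prop := ∀ (X A : Type) [Group A], Finite X → Am A → Am (X → A)

/-- Increasing unions: `taskDirected` applied to the range of `B`, and `sSup = ⊤`. -/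
def S_Dir : Prop := ∀ (A : Type) [Group A] (B : ℕ → Subgroup A), Monotone B →
  (∀ a, ∃ n, a ∈ B n) → (∀ n, Am (B n)) → Am A

/-! ## Permutations commuting with right multiplication -/

/-- The permutations of `X × M` which commute with the right multiplications by `M`. -/
def mono (X M : Type) [Group M] : Subgroup (Equiv.Perm (X × M)) where
  carrier := {π | ∀ x m, π (x, m) = ((π (x, 1)).1, (π (x, 1)).2 * m)}
  mul_mem' := by
    intro π σ hπ hσ x m
    simp only [Set.mem_setOf_eq] at hπ hσ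
    simp only [Equiv.Perm.coe_mul, Function.comp_apply]
    rw [hσ x m, hπ _ (_ * m)]
    have h1 : π (σ (x, 1)) = ((π ((σ (x, 1)).1, 1)).1, (π ((σ (x, 1)).1, 1)).2 * (σ (x, 1)).2) :=
      hπ (σ (x, 1)).1 (σ (x, 1)).2
    rw [h1]
    simp [mul_assoc]
  one_mem' := by
    intro x m
    simp
  inv_mem' := by
    intro π hπ x m
    simp only [Set.mem_setOf_eq] at hπ
    have h1 : (x, (1 : M)) = π (π⁻¹ (x, 1)) := by simp
    have h2 := hπ (π⁻¹ (x, 1)).1 (π⁻¹ (x, 1)).2
    have h3 := hπ (π⁻¹ (x, 1)).1 ((π⁻¹ (x, 1)).2 * m)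
    rw [show ((π⁻¹ (x, 1)).1, (π⁻¹ (x, 1)).2) = π⁻¹ (x, 1) from rfl, ← h1] at h2
    have h4 := Prod.ext_iff.1 h2
    simp only at h4
    rw [← mul_assoc, ← h4.1, ← h4.2, one_mul] at h3
    rw [Equiv.Perm.inv_eq_iff_eq, h3]

theorem mem_mono {X M : Type} [Group M] {π : Equiv.Perm (X × M)} :
    π ∈ mono X M ↔ ∀ x m, π (x, m) = ((π (x, 1)).1, (π (x, 1)).2 * m) := Iff.rfl

/-- The group `mono X M` is amenable if `X` is finite and `M` amenable.

Proof.  `τ : mono X M → Perm X`, `τ π x = (π (x, 1)).1` is a homomorphism (the inverse of `τ π` is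
`τ π⁻¹`).  `Perm X` is finite, hence amenable.  On the kernel of `τ` the map
`π ↦ (x ↦ (π (x, 1)).2)` is an injective homomorphism to `X → M`.  Use `S_Ext`, `S_Sub`, `S_Pi`,
`S_Fin`. -/
def S_Mono : Prop := ∀ (X M : Type) [Group M], Finite X → Am M → Am (mono X M)

/-! ## The induced action -/

section kk

variable {A M L : Type} [Group A] [Group M] (K : Subgroup A) (s : A ⧸ K → A)
  (hs : ∀ f, ((s f : A) : A ⧸ K) = f)

include hs in
theorem kk_mem (a : A) (f : A ⧸ K) : (s (a • f))⁻¹ * a * s f ∈ K := by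
  rw [mul_assoc, ← QuotientGroup.eq, hs]
  conv_lhs => rw [← hs f]
  rfl

/-- The action of `A` on `((A ⧸ K) × L) × M` induced from a family of homomorphisms
`θ l : K → M`, with the section `s`. -/
def kk (θ : L → K →* M) : A →* Equiv.Perm (((A ⧸ K) × L) × M) :=
  MonoidHom.toHomPerm
    { toFun := fun a p => ((a • p.1.1, p.1.2),
        θ p.1.2 ⟨(s (a • p.1.1))⁻¹ * a * s p.1.1, kk_mem K s hs a p.1.1⟩ * p.2)
      map_one' := by
        funext p
        obtain ⟨⟨f, l⟩, m⟩ := p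
        have h : (⟨(s ((1 : A) • f))⁻¹ * 1 * s f, kk_mem K s hs 1 f⟩ : K) = 1 := by
          apply Subtype.ext
          simp
        show (((1 : A) • f, l), θ l _ * m) = ((f, l), m)
        rw [h, map_one, one_mul, one_smul]
      map_mul' := by
        intro a b
        funext p
        obtain ⟨⟨f, l⟩, m⟩ := p
        have h : (⟨(s ((a * b) • f))⁻¹ * (a * b) * s f, kk_mem K s hs (a * b) f⟩ : K) =
            ⟨(s (a • b • f))⁻¹ * a * s (b • f), kk_mem K s hs a (b • f)⟩ *
              ⟨(s (b • f))⁻¹ * b * s f, kk_mem K s hs b f⟩ := by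
          apply Subtype.ext
          simp only [Subgroup.coe_mul, mul_smul]
          group
        show (((a * b) • f, l), θ l _ * m) = _
        rw [h, map_mul, mul_assoc, mul_smul]
        rfl }

theorem kk_apply (θ : L → K →* M) (a : A) (f : A ⧸ K) (l : L) (m : M) :
    kk K s hs θ a ((f, l), m) =
      ((a • f, l), θ l ⟨(s (a • f))⁻¹ * a * s f, kk_mem K s hs a f⟩ * m) := rfl

theorem kk_mono (θ : L → K →* M) (a : A) : kk K s hs θ a ∈ mono ((A ⧸ K) × L) M := by
  rintro ⟨f, l⟩ m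
  simp [kk_apply]

end kk

/-! ## Matching -/

/-- Decomposition of `A ⧸ N` as a `C`-set.

Proof.  `C` acts on `A ⧸ N` by `c • f = j c • f`.  As `N` is normal the stabiliser of every point
is `D = j⁻¹ N`.  Choose a representative `a o` for each orbit `o` of this action; the orbit of
`a o N` is in bijection with `C ⧸ D` by `x ↦ j (x.out) a o N`. -/
def S_Decomp : Prop := ∀ (C A : Type) [Group C] [Group A] (j : C →* A) (N : Subgroup A)
  [N.Normal] [N.FiniteIndex] (D : Subgroup C), N.comap j = D →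
  ∃ (O : Type) (_ : Finite O) (a : O → A),
    Function.Bijective (fun p : (C ⧸ D) × O => ((j (Quotient.out p.1) * a p.2 : A) : A ⧸ N))

/-- The matching lemma.

Proof.  Let `β₁ : (C ⧸ D) × O₁ ≃ A₁ ⧸ N₁` be the bijection `ha` and `s₁` the section
`s₁ (β₁ (x, o)) = j₁ (x.out) * a o`.  Let `Φ₁` be the conjugate of `kk N₁ s₁ θ` (labels `L = O₂`) by
the bijection `(((C ⧸ D) × O₁) × O₂) × M ≃ ((A₁ ⧸ N₁) × O₂) × M`; similarly `Φ₂'` from
`kk N₂ s₂ θ'` (labels `L = O₁`, where `O₁` and `O₂` are exchanged by the bijection).  As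
`(c • x).out = c * x.out * d` with `d ∈ D` and `N₁` is normal, `j₁ c • β₁ (x, o) = β₁ (c • x, o)`.  Hence,
with `δ = ((c • x).out)⁻¹ * c * x.out ∈ D`,
`Φ₁ (j₁ c) : (((x, o₁), o₂), m) ↦ (((c • x, o₁), o₂), θ o₂ ((a o₁)⁻¹ * j₁ δ * a o₁) * m)` and
`Φ₂' (j₂ c) : (((x, o₁), o₂), m) ↦ (((c • x, o₁), o₂), θ' o₁ ((b o₂)⁻¹ * j₂ δ * b o₂) * m)`.
Put `Φ₂ = U Φ₂' U⁻¹` with `U (((x, o₁), o₂), m) = (((x, o₁), o₂), u o₁ o₂ * m)`; then `hu` gives
`Φ₁ (j₁ c) = Φ₂ (j₂ c)`.
Injectivity of `Φ₁`: if `Φ₁ g = 1` then `g` fixes every coset, so `g ∈ N₁`, and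
`θ o ((s₁ f)⁻¹ * g * s₁ f) = 1` for some `o` and `f` (`O₂` is not empty since `A₂ ⧸ N₂` is not), so `g = 1`. -/
def S_Match : Prop := ∀ (C A₁ A₂ M : Type) [Group C] [Group A₁] [Group A₂] [Group M]
  (j₁ : C →* A₁) (j₂ : C →* A₂) (N₁ : Subgroup A₁) (N₂ : Subgroup A₂) [N₁.Normal] [N₂.Normal]
  (D : Subgroup C), N₁.comap j₁ = D → N₂.comap j₂ = D →
  ∀ (O₁ O₂ : Type) (a : O₁ → A₁) (b : O₂ → A₂),
  Function.Bijective (fun p : (C ⧸ D) × O₁ => ((j₁ (Quotient.out p.1) * a p.2 : A₁) : A₁ ⧸ N₁)) →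
  Function.Bijective (fun p : (C ⧸ D) × O₂ => ((j₂ (Quotient.out p.1) * b p.2 : A₂) : A₂ ⧸ N₂)) →
  ∀ (θ : O₂ → N₁ →* M) (θ' : O₁ → N₂ →* M) (u : O₁ → O₂ → M),
  (∀ (o₁ : O₁) (o₂ : O₂) (d : C) (h₁ : (a o₁)⁻¹ * j₁ d * a o₁ ∈ N₁)
    (h₂ : (b o₂)⁻¹ * j₂ d * b o₂ ∈ N₂), d ∈ D →
    θ o₂ ⟨_, h₁⟩ * u o₁ o₂ = u o₁ o₂ * θ' o₁ ⟨_, h₂⟩) →
  ∃ (Φ₁ : A₁ →* mono (((C ⧸ D) × O₁) × O₂) M) (Φ₂ : A₂ →* mono (((C ⧸ D) × O₁) × O₂) M),
    (∀ c, Φ₁ (j₁ c) = Φ₂ (j₂ c)) ∧
    ((∀ o, Function.Injective (θ o)) → Function.Injective Φ₁) ∧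
    ((∀ o, Function.Injective (θ' o)) → Function.Injective Φ₂)

/-! ## Finite-index subgroups and characters -/

/-- Potency with a character.

Proof.  Let `K, ρ` be as in `VR j`.  Let `K'` be the subgroup of all `x ∈ K` with
`ρ x ∈ zpowers c`; it has finite index in `A`.  Let `N₀` be its normal core and `χ₀ : N₀ → ℤ` with
`ρ x = c ^ (χ₀ x)`.  If `j d ∈ N₀` then `d = ρ (j d) ∈ zpowers c`; so `N₀.comap j` is a subgroup of
finite index of `C` inside `zpowers c`, i.e. `= zpowers (c ^ m)` with `m > 0`, and `χ₀ (j (c ^ m)) = m`.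
For `a ∈ A` let `v a = χ₀ (a⁻¹ * j (c ^ m) * a)` and let `g ≠ 0` be a generator of the subgroup of `ℤ`
generated by all `v a` (`v 1 = m ≠ 0`).  Given `k > 0` let `N` be the normal core of
`{x ∈ N₀ | k * g ∣ χ₀ x}` (finite index).  If `j d ∈ N` then `d = c ^ (m * l)` and
`k * g ∣ l * v a` for all `a`, so `k * g ∣ l * g` and `k ∣ l`; conversely `j (c ^ (m * k))` is in `N`.
So `N.comap j = zpowers (c ^ (m * k))`; `χ` is the restriction of `χ₀`, with value `m * k ≠ 0`. -/
def S_Pot : Prop := ∀ (C A : Type) [Group C] [Group A] (j : C →* A), VR j →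
  ∀ c : C, (∀ n : ℤ, c ^ n = 1 → n = 0) → (Subgroup.zpowers c).FiniteIndex →
  ∃ m : ℕ, 0 < m ∧ ∀ k : ℕ, 0 < k → ∃ (N : Subgroup A) (_ : N.Normal) (_ : N.FiniteIndex)
    (χ : N →* Multiplicative ℤ), N.comap j = Subgroup.zpowers (c ^ (m * k)) ∧
    ∃ h : j (c ^ (m * k)) ∈ N, χ ⟨j (c ^ (m * k)), h⟩ ≠ 1

/-- A generic character.

Proof.  For `t : A ⧸ N → ℤ` let `χ_t x = ∏ f, χ ((f.out)⁻¹ * x * f.out) ^ t f`, a homomorphism
`N → Multiplicative ℤ`.  Let `w y = χ (y⁻¹ * e * y)` for `y ∈ A`; it depends only on `y N`.  Then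
`χ_t (a⁻¹ * e * a) = ∏ f, w (a * f.out) ^ t f`: an integral linear form `L_a` in `t`, whose
coefficient at `f = a⁻¹ N` is `w 1 = χ e ≠ 0`.  It depends only on the coset of `a`, so there are
finitely many non-zero linear forms; their product is a non-zero polynomial over `ℤ`, hence there
is `t` with all `L_a t ≠ 0` (`MvPolynomial.funext`). -/
def S_Gen : Prop := ∀ (A : Type) [Group A] (N : Subgroup A) [N.Normal] [N.FiniteIndex]
  (χ : N →* Multiplicative ℤ) (e : A) (he : e ∈ N), χ ⟨e, he⟩ ≠ 1 →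
  ∃ χ' : N →* Multiplicative ℤ, ∀ (a : A) (h : a⁻¹ * e * a ∈ N), χ' ⟨_, h⟩ ≠ 1

/-! ## Making two elements conjugate -/

/-- Adjoining `n`-th roots.

Proof.  `M = mono (ZMod n) A`; `c g (i, m) = (i, g * m)`; `Ψ' π = ∏ i, Ψ ((π (i, 1)).2)` (a
homomorphism, as `i ↦ (π (i, 1)).1` is a permutation of `ZMod n` and `Multiplicative ℤ` is
commutative); `r (i, m) = (i + 1, if i + 1 = 0 then e * m else m)`.  By induction on `k`,
`r ^ k (i, m) = (i + k, e ^ #{t < k | i + t + 1 = 0} * m)`, and the number is `1` for `k = n`. -/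
def S_Root : Prop := ∀ (A : Type) [Group A] (Ψ : A →* Multiplicative ℤ) (n : ℕ), 0 < n → Am A →
  ∃ (M : Type) (_ : Group M) (c : A →* M) (Ψ' : M →* Multiplicative ℤ), Am M ∧
    Function.Injective c ∧ (∀ a, Ψ' (c a) = Ψ a ^ n) ∧
    ∀ e : A, ∃ r : M, r ^ n = c e ∧ Ψ' r = Ψ e

/-- The shift.

Proof.  For `g ∈ A` let `ι g : ℤ → M` be `ι g 0 = c g`, `ι g k = p g` for `k > 0` and `ι g k = q g` for
`k < 0`.  Let `U` be the group of all `F : ℤ → M` with (a) `Ψ (F k) = Ψ (F 0)` for all `k` and (b) for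
some `n`, `F k ∈ p.range` for all `k > n` and `F k ∈ q.range` for all `k < -n`.  `U` is invariant
under the shift `(x F) k = F (k - 1)`; let `B = U ⋊ ℤ` (e.g. the subgroup of all elements with left
component in `U` of Mathlib's `SemidirectProduct` of `ℤ → M` by `Multiplicative ℤ`).  `B` is amenable: the kernel of `B → ℤ` is
`U`, the union over `n` of the groups `U_n` given by (b) for the fixed `n`, and `U_n` maps to the finite
power `Icc (-n) n → M` with commutative kernel (`S_Ext, S_Sub, S_Pi, S_Solv, S_Dir`).  Further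
`x * ι e * x⁻¹ = ι f`: at `k > 1` this is `p e = p f`, at `k = 1` it is `c e = p f`, at `k = 0` it is
`q e = c f`, at `k < 0` it is `q e = q f`.  `Ψ' (F, s) = Ψ (F 0)` is a homomorphism by (a). -/
def S_Shift : Prop := ∀ (A M : Type) [Group A] [Group M] (c p q : A →* M) (e f : A)
  (Ψ : M →* Multiplicative ℤ), Am M →
  Function.Injective c → (∀ x y, p x * p y = p y * p x) → (∀ x y, q x * q y = q y * q x) →
  p f = p e → p e = c e → q e = q f → q f = c f →
  (∀ a, Ψ (p a) = Ψ (c a)) → (∀ a, Ψ (q a) = Ψ (c a)) →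
  ∃ (B : Type) (_ : Group B) (i : A →* B) (x : B) (Ψ' : B →* Multiplicative ℤ), Am B ∧
    Function.Injective i ∧ x * i e * x⁻¹ = i f ∧ ∀ a, Ψ' (i a) = Ψ (c a)

/-- Two elements with the same non-zero character value become conjugate in an amenable overgroup.

Proof.  Replacing `e, f` by their inverses we may assume `Ψ e = n > 0`.  `S_Root` gives `M, c, Ψ'` and
`r, t` with `r ^ n = c e`, `t ^ n = c f`; apply `S_Shift` with `p g = r ^ (Ψ g)`, `q g = t ^ (Ψ g)`. -/
def S_Conj : Prop := ∀ (A : Type) [Group A] (Ψ : A →* Multiplicative ℤ) (e f : A), Am A →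
  Ψ e = Ψ f → Ψ e ≠ 1 →
  ∃ (B : Type) (_ : Group B) (i : A →* B) (x : B) (Ψ' : B →* Multiplicative ℤ) (n : ℕ), 0 < n ∧
    Am B ∧ Function.Injective i ∧ x * i e * x⁻¹ = i f ∧ ∀ a, Ψ' (i a) = Ψ a ^ n

/-- The same for finitely many pairs (induction on the list, from `S_Conj`). -/
def S_Conjs : Prop := ∀ (A : Type) [Group A] (Ψ : A →* Multiplicative ℤ) (L : List (A × A)), Am A →
  (∀ z ∈ L, Ψ z.1 = Ψ z.2 ∧ Ψ z.1 ≠ 1) →
  ∃ (B : Type) (_ : Group B) (i : A →* B), Am B ∧ Function.Injective i ∧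
    ∀ z ∈ L, ∃ x : B, x * i z.1 * x⁻¹ = i z.2

/-- The common amenable overgroup. -/
def S_Comb : Prop := ∀ (C A₁ A₂ : Type) [Group C] [Group A₁] [Group A₂] (j₁ : C →* A₁)
  (j₂ : C →* A₂), VCyc C → Am A₁ → Am A₂ → VR j₁ → VR j₂ →
  ∃ (P : Type) (_ : Group P) (Φ₁ : A₁ →* P) (Φ₂ : A₂ →* P), Am P ∧ Function.Injective Φ₁ ∧
    Function.Injective Φ₂ ∧ ∀ c, Φ₁ (j₁ c) = Φ₂ (j₂ c)

/-! ## Reduction to amenable groups -/

/-- Reduction to amenable quotients.

Proof.  Let `K, ρ` be as in `VR j`.  (i) `C` is amenable: the normal core of a cyclic subgroup of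
finite index is commutative (`S_Solv`) with finite quotient (`S_Ext, S_Fin`).  (ii) Let
`π₀ = kk K s (fun _ : Unit => ρ)` with `s` a section of `G → G ⧸ K` (`Quotient.out`), a homomorphism to
`mono ((G ⧸ K) × Unit) C`, amenable by `S_Mono`.  If `π₀ k = 1` then `k` fixes the coset `K`, so `k ∈ K`, and
`ρ ((s 1)⁻¹ * k * s 1) = 1` with `s 1 ∈ K`, so `ρ k = 1`.  (iii) By induction on the list there are an
amenable group `B` and `ψ : G → B` with `ψ ((j (ρ g))⁻¹ * g) ≠ 1` for all `g ∈ S` which lie in `K`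
(`(j (ρ g))⁻¹ * g ≠ 1` as `g` is not in the range of `j`; use `ResAm` and `S_Prod`).  (iv) Let `A` be the
range of `(π₀, ψ) : G → mono .. × B` and `π : G → A`.  `A` is amenable (`S_Sub`, `S_Prod`).  `VR (π ∘ j)`: the
image of `K` has finite index in `A`, and `ρ` factors through it since `ρ k = 1` whenever `k ∈ K`
and `π k = 1`.  (v) If `g ∈ S` and `π g = π (j c)` let `k = g⁻¹ * j c`; `π₀ k = 1`, so `k ∈ K`, `ρ k = 1`,
hence `g ∈ K` and `ρ g = c`, and `ψ k = 1` contradicts `ψ ((j (ρ g))⁻¹ * g) ≠ 1`. -/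
def S_Red : Prop := ∀ (C G : Type) [Group C] [Group G] (j : C →* G), VCyc C → VR j → ResAm G →
  ∀ S : List G, (∀ g ∈ S, g ∉ j.range) →
  ∃ (A : Type) (_ : Group A) (π : G →* A), Am A ∧ VR (π.comp j) ∧
    ∀ g ∈ S, π g ∉ (π.comp j).range

/-! ## The pushout -/

open Monoid in
/-- Words with letters outside the base group survive in a free group (compare
`Pool/Agent/H476RA/TaskC.lean`, which does the same for HNN extensions; its `act` and the lemmas on
reduced lists can be copied).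

Proof.  Let `R = f₀.range`, `Y = ι × (P ⧸ R)`, on which `P` acts through the second factor, and let `P`
act on `FreeGroup Y` by permuting the basis.  Let
`Θ : PushoutI φ → FreeGroup Y ⋊ P`, `Θ (of i g) = ⟨of (i, 1) * (of (i, f i g))⁻¹, f i g⟩`
(the conjugate of `f i g` by the generator `(i, 1)`), `Θ (base h) = ⟨1, f₀ h⟩`; this is well defined,
since for `g = φ i h` the two generators are equal.  The second component of `Θ` is `F`, so
`k ↦ (Θ k).left` is a homomorphism `θ` on `F.ker`.  For the word `base h * g_1 ⋯ g_n`, `n ≥ 1`, with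
indices `i_1, …, i_n` (consecutive ones different) and `p_0 = f₀ h`, `p_k = p_(k-1) * f (g_k)` the left
component of `Θ` is `(i_1, p_0) (i_1, p_1)⁻¹ (i_2, p_1) (i_2, p_2)⁻¹ ⋯ (i_n, p_(n-1)) (i_n, p_n)⁻¹`, which is
a non-empty reduced word: `p_(k-1) R ≠ p_k R` since `f (g_k) ∉ R`, and `i_k ≠ i_(k+1)`. -/
def S_Push : Prop := ∀ (ι : Type) (G : ι → Type) [∀ i, Group (G i)] (H : Type) [Group H]
  (φ : ∀ i, H →* G i) (P : Type) [Group P] (f : ∀ i, G i →* P) (f₀ : H →* P)
  (hf : ∀ i, (f i).comp (φ i) = f₀) (h : H) (w : CoprodI.Word G), w ≠ CoprodI.Word.empty →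
  (∀ l ∈ w.toList, f l.1 l.2 ∉ f₀.range) →
  ∀ hk : PushoutI.base φ h * PushoutI.ofCoprodI w.prod ∈ (PushoutI.lift f f₀ hf).ker,
  ∃ (Y : Type) (θ : (PushoutI.lift f f₀ hf).ker →* FreeGroup Y),
    θ ⟨PushoutI.base φ h * PushoutI.ofCoprodI w.prod, hk⟩ ≠ 1

open Monoid in
/-- The theorem for two factors. -/
def S_Final : Prop := ∀ (G : Bool → Type) [∀ i, Group (G i)] (H : Type) [Group H]
  (φ : ∀ i, H →* G i), (∀ i, ResAm (G i)) → VCyc H → (∀ i, VR (φ i)) → ResAm (PushoutI φ)

end Pool.Agent.Q31.RA
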